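import Pool.Agent.Q234.HS.Main

/-! Averages over lengths; closed half-spaces as sets avoiding the open half-space. -/

set_option autoImplicit false

namespace Pool.Agent.Q234.HS

open Finset Filter Topology

theorem avg {x y c f : ℕ → ℝ} (hx : ∀ k, 0 ≤ x k) (hy : ∀ k, 0 ≤ y k) (hc : ∀ k, 0 < c k)
    (hsub : ∀ k l, c (k + l) ≤ c k * c l)
    (h : ∀ n, ∑ p ∈ antidiagonal n, x p.1 * y p.2 ≤ c n * f n) (N : ℕ) :
    (∑ k ∈ range (N + 1), x k / c k) * (∑ k ∈ range (N + 1), y k / c k) ≤
      ∑ n ∈ range (2 * N + 1), f n := by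
  refine (mul_le_conv (fun n => div_nonneg (hx n) (hc n).le)
    (fun n => div_nonneg (hy n) (hc n).le) N).trans (sum_le_sum fun n _ => ?_)
  have h1 : ∑ p ∈ antidiagonal n, x p.1 / c p.1 * (y p.2 / c p.2) ≤
      (∑ p ∈ antidiagonal n, x p.1 * y p.2) / c n := by
    rw [sum_div]
    refine sum_le_sum fun p hp => ?_
    rw [HasAntidiagonal.mem_antidiagonal] at hp
    rw [div_mul_div_comm, ← hp]
    exact div_le_div_of_nonneg_left (mul_nonneg (hx _) (hy _)) (hc _) (hsub _ _)
  refine h1.trans ?_
  rw [div_le_iff₀ (hc n), mul_comm]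
  exact h n

variable {V : Type} [AddCommGroup V]

theorem map_neg_neg (w : List V) : (w.map fun a => -a).map (fun a => -a) = w := by
  rw [List.map_map]
  have h6 : ((fun a : V => -a) ∘ fun a : V => -a) = id := by
    funext a
    simp
  rw [h6, List.map_id]

theorem map_neg_sum (w : List V) : (w.map fun a => -a).sum = -w.sum := by
  have := nr_sum w
  unfold nr at this
  rwa [List.sum_reverse] at this

theorem Saw.mapNeg {w : List V} (h : Saw w) : Saw (w.map fun a => -a) := by
  have h1 := h.nr.reverse
  unfold HS.nr at h1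
  rwa [List.reverse_reverse] at h1

/-- closed half-space walks are the walks which avoid the opposite open half-space -/
theorem N_OutK_half {S : Set V} (hneg : ∀ a ∈ S, -a ∈ S) (l : V →+ ℤ) (n : ℕ) :
    N S (OutK {v | 0 < l v}) n = N S (Wk l) n := by
  unfold N
  have hinj : Set.InjOn (fun w : List V => w.map fun a => -a) (W S (Wk l) n) := by
    intro w _ w' _ he
    have h1 := congrArg (fun w : List V => w.map fun a => -a) he
    simp only [map_neg_neg] at h1
    exact h1
  rw [← hinj.ncard_image]
  congr 1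
  ext w
  constructor
  · rintro ⟨h1, h2, h3, h4⟩
    refine ⟨w.map fun a => -a, ⟨by simpa using h1, ?_, h3.mapNeg, ?_⟩, map_neg_neg w⟩
    · intro a ha
      obtain ⟨b, hb, rfl⟩ := List.mem_map.1 ha
      exact hneg b (h2 b hb)
    · intro u hu
      by_cases hu0 : u = []
      · simp [hu0]
      have h5 : u.map (fun a => -a) <+: w := by
        have := hu.map (fun a : V => -a)
        rwa [map_neg_neg] at this
      have h6 := h4 _ (by simpa using hu0) h5
      rw [map_neg_sum, Set.mem_ofPred_eq, map_neg] at h6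
      omega
  · rintro ⟨w, ⟨h1, h2, h3, h4⟩, rfl⟩
    refine ⟨by simpa using h1, ?_, h3.mapNeg, ?_⟩
    · intro a ha
      obtain ⟨b, hb, rfl⟩ := List.mem_map.1 ha
      exact hneg b (h2 b hb)
    · intro u hu0 hu h5
      have h6 : u.map (fun a => -a) <+: w := by
        have := hu.map (fun a : V => -a)
        rwa [map_neg_neg] at this
      have h7 := h4 _ h6
      rw [map_neg_sum, map_neg] at h7
      rw [Set.mem_ofPred_eq] at h5
      omega

theorem N_InK_half (S : Set V) (l : V →+ ℤ) (n : ℕ) :
    N S (InK {v | 0 < l v}) n = N S (Half l) n := rfl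

end Pool.Agent.Q234.HS
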