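import Pool.Agent.Q234.HS.Main

/-! Bridges of a given height have total mass at most one. -/

set_option autoImplicit false

namespace Pool.Agent.Q234.HS

open Finset Filter Topology

theorem mul_le_conv' {f g : ℕ → ℝ} (hf : ∀ n, 0 ≤ f n) (hg : ∀ n, 0 ≤ g n) (M N : ℕ) :
    (∑ i ∈ range (M + 1), f i) * ∑ j ∈ range (N + 1), g j ≤
      ∑ n ∈ range (M + N + 1), ∑ p ∈ antidiagonal n, f p.1 * g p.2 := by
  rw [biU_sum, sum_mul_sum, ← sum_product']
  refine sum_le_sum_of_subset_of_nonneg ?_ fun p _ _ => mul_nonneg (hf _) (hg _)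
  intro p hp
  simp only [mem_biUnion, mem_range, HasAntidiagonal.mem_antidiagonal, mem_product] at hp ⊢
  exact ⟨p.1 + p.2, by omega, rfl⟩

variable {V : Type} [AddCommGroup V]

theorem br_append {l : V →+ ℤ} {u v : List V} (hu : Br l u) (hv : Br l v) : Br l (u ++ v) := by
  refine ⟨half_append hu hv.1, ?_⟩
  intro x hx
  rcases suffix_append_cases hx with h | ⟨y, rfl, hy⟩
  · exact hv.2 x h
  · rw [List.sum_append, map_add]
    have a1 := hu.2 y hy
    have a2 : 0 ≤ l v.sum := hv.2 v (List.suffix_refl v)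
    omega

theorem brT_append {l : V →+ ℤ} {T T' : ℕ} {u v : List V} (hu : BrT l T u) (hv : BrT l T' v) :
    BrT l (T + T') (u ++ v) := by
  refine ⟨br_append hu.1 hv.1, ?_⟩
  rw [List.sum_append, map_add, hu.2, hv.2]
  push_cast
  ring

theorem N_BrT_conv {S : Set V} (hS : S.Finite) (l : V →+ ℤ) (T T' n : ℕ) :
    ∑ p ∈ antidiagonal n, N S (BrT l T) p.1 * N S (BrT l T') p.2 ≤ N S (BrT l (T + T')) n := by
  rw [← ncard_WW hS]
  refine Set.ncard_le_ncard_of_injOn (fun p => p.1 ++ p.2) ?_ ?_ (finite_W hS _ _)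
  · rintro ⟨u, v⟩ ⟨h1, h2, h3, h4, h5⟩
    refine ⟨?_, ?_, brT_append h4 h5⟩
    · simp only [List.length_append]
      exact h1
    · intro a ha
      rcases List.mem_append.1 ha with h | h
      · exact h2 a h
      · exact h3 a h
  · rintro ⟨u, v⟩ ⟨h1, h2, h3, h4, h5⟩ ⟨u', v'⟩ ⟨k1, k2, k3, k4, k5⟩ he
    simp only at he
    change BrT l T u at h4
    change BrT l T' v at h5
    change BrT l T u' at k4
    change BrT l T' v' at k5
    rcases List.append_eq_append_iff.1 he with ⟨r, h6, h7⟩ | ⟨r, h6, h7⟩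
    · have hr : r = [] := by
        by_contra hr
        have h8 := h5.1.1.2 r hr (by rw [h7]; exact List.prefix_append _ _)
        have h9 := k4.2
        rw [h6, List.sum_append, map_add, h4.2] at h9
        omega
      subst hr
      simp at h6 h7
      rw [h6, h7]
    · have hr : r = [] := by
        by_contra hr
        have h8 := k5.1.1.2 r hr (by rw [h7]; exact List.prefix_append _ _)
        have h9 := h4.2
        rw [h6, List.sum_append, map_add, k4.2] at h9
        omega
      subst hr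
      simp at h6 h7
      rw [h6, h7]

/-- powers of truncated generating functions of bridges of height `T` -/
theorem gfT_pow {S : Set V} (hS : S.Finite) (l : V →+ ℤ) (T M : ℕ) {z : ℝ}
    (hz : 0 ≤ z) (k : ℕ) :
    gf S (BrT l T) z M ^ k ≤ gf S (BrT l (k * T)) z (k * M) := by
  induction k with
  | zero =>
    rw [pow_zero, zero_mul, zero_mul]
    unfold gf
    rw [zero_add, sum_range_one, pow_zero, mul_one, N_zero]
    · norm_num
    · refine ⟨⟨⟨saw_nil, ?_⟩, ?_⟩, by simp⟩
      · intro u hu h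
        exact absurd (List.prefix_nil.1 h) hu
      · intro u h
        rw [List.suffix_nil] at h
        simp [h]
  | succ k ih =>
    have h1 : gf S (BrT l (k * T)) z (k * M) * gf S (BrT l T) z M ≤
        gf S (BrT l ((k + 1) * T)) z ((k + 1) * M) := by
      refine (mul_le_conv' (f := fun n => (N S (BrT l (k * T)) n : ℝ) * z ^ n)
        (g := fun n => (N S (BrT l T) n : ℝ) * z ^ n) (fun n => by positivity)
        (fun n => by positivity) (k * M) M).trans ?_
      have e1 : k * M + M + 1 = (k + 1) * M + 1 := by ring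
      rw [e1]
      unfold gf
      refine sum_le_sum fun n _ => ?_
      have h3 : ∑ p ∈ antidiagonal n, ((N S (BrT l (k * T)) p.1 : ℝ) * z ^ p.1) *
          ((N S (BrT l T) p.2 : ℝ) * z ^ p.2) =
          (∑ p ∈ antidiagonal n, (N S (BrT l (k * T)) p.1 : ℝ) * N S (BrT l T) p.2) * z ^ n := by
        rw [sum_mul]
        refine sum_congr rfl fun p hp => ?_
        rw [HasAntidiagonal.mem_antidiagonal] at hp
        rw [← hp, pow_add]
        ring
      rw [h3]
      refine mul_le_mul_of_nonneg_right ?_ (by positivity)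
      have h4 := N_BrT_conv hS l (k * T) T n
      rw [show k * T + T = (k + 1) * T by ring] at h4
      exact_mod_cast h4
    rw [pow_succ]
    exact (mul_le_mul_of_nonneg_right ih (gf_nonneg S _ hz M)).trans h1

/-- the mass of the bridges of height `T` is at most one -/
theorem gfT_le_one {S : Set V} (hS : S.Finite) (l : V →+ ℤ) (T M : ℕ) {z : ℝ} (hz : 0 ≤ z)
    (hb : ∀ n, (N S (Br l) n : ℝ) * z ^ n ≤ 1) : gf S (BrT l T) z M ≤ 1 := by
  by_contra hcon
  push Not at hcon
  have h1 : ∀ k : ℕ, gf S (BrT l T) z M ^ k ≤ (k : ℝ) * M + 1 := by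
    intro k
    refine (gfT_pow hS l T M hz k).trans ?_
    unfold gf
    calc ∑ n ∈ range (k * M + 1), (N S (BrT l (k * T)) n : ℝ) * z ^ n
        ≤ ∑ _n ∈ range (k * M + 1), (1 : ℝ) := by
          refine sum_le_sum fun n _ => le_trans ?_ (hb n)
          refine mul_le_mul_of_nonneg_right ?_ (by positivity)
          exact_mod_cast N_mono hS (P := BrT l (k * T)) (Q := Br l) (fun w hw => hw.1) n
      _ = _ := by simp
  -- exponential growth beats linear growth
  set x := gf S (BrT l T) z M with hx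
  have h2 : Tendsto (fun k : ℕ => (k : ℝ) ^ 1 / x ^ k) atTop (𝓝 0) :=
    tendsto_pow_const_div_const_pow_of_one_lt 1 hcon
  have h3 : Tendsto (fun k : ℕ => 1 / x ^ k) atTop (𝓝 0) := by
    have := (tendsto_pow_atTop_atTop_of_one_lt hcon).const_div_atTop (1 : ℝ)
    exact this
  have h4 : Tendsto (fun k : ℕ => (k : ℝ) ^ 1 / x ^ k * (M : ℝ) + 1 / x ^ k) atTop
      (𝓝 ((0 : ℝ) * (M : ℝ) + 0)) :=
    (h2.mul_const _).add h3
  rw [zero_mul, zero_add] at h4
  have h5 : ∀ k : ℕ, (1 : ℝ) ≤ (k : ℝ) ^ 1 / x ^ k * M + 1 / x ^ k := by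
    intro k
    have h6 : 0 < x ^ k := by positivity
    rw [pow_one, div_mul_eq_mul_div, ← add_div, le_div_iff₀ h6, one_mul]
    exact h1 k
  have h6 := ge_of_tendsto' h4 h5
  norm_num at h6

/-- bridges: at most `R + 1` from the heights up to `R`, and those of larger height -/
theorem gf_Br_le {S : Set V} (hS : S.Finite) (l : V →+ ℤ) (R M : ℕ) {z : ℝ} (hz : 0 ≤ z)
    (hb : ∀ n, (N S (Br l) n : ℝ) * z ^ n ≤ 1) :
    gf S (Br l) z M ≤ R + 1 + gf S (fun w => Br l w ∧ (R : ℤ) < l w.sum) z M := by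
  have h1 : ∀ n, N S (Br l) n ≤ ∑ t ∈ range (R + 1), N S (BrT l t) n +
      N S (fun w => Br l w ∧ (R : ℤ) < l w.sum) n := by
    intro n
    induction R with
    | zero =>
      rw [zero_add, sum_range_one]
      unfold N
      refine (Set.ncard_le_ncard ?_ ((finite_W hS _ n).union (finite_W hS _ n))).trans
        (Set.ncard_union_le _ _)
      intro w hw
      by_cases h : l w.sum = 0
      · exact Or.inl ⟨hw.1, hw.2.1, hw.2.2, by rw [h]; rfl⟩
      · refine Or.inr ⟨hw.1, hw.2.1, hw.2.2, ?_⟩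
        have := hw.2.2.2 w (List.suffix_refl w)
        push_cast
        omega
    | succ R ih =>
      rw [sum_range_succ]
      refine ih.trans ?_
      rw [add_assoc]
      refine Nat.add_le_add_left ?_ _
      unfold N
      refine (Set.ncard_le_ncard ?_ ((finite_W hS _ n).union (finite_W hS _ n))).trans
        (Set.ncard_union_le _ _)
      intro w hw
      by_cases h : l w.sum = R + 1
      · exact Or.inl ⟨hw.1, hw.2.1, hw.2.2.1, by rw [h]; push_cast; rfl⟩
      · refine Or.inr ⟨hw.1, hw.2.1, hw.2.2.1, ?_⟩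
        have := hw.2.2.2
        push_cast
        omega
  have h2 : gf S (Br l) z M ≤ ∑ t ∈ range (R + 1), gf S (BrT l t) z M +
      gf S (fun w => Br l w ∧ (R : ℤ) < l w.sum) z M := by
    unfold gf
    rw [sum_comm, ← sum_add_distrib]
    refine sum_le_sum fun n _ => ?_
    rw [← sum_mul, ← add_mul]
    refine mul_le_mul_of_nonneg_right ?_ (by positivity)
    exact_mod_cast h1 n
  refine h2.trans ?_
  have h3 : ∑ t ∈ range (R + 1), gf S (BrT l t) z M ≤ (R : ℝ) + 1 := by
    calc ∑ t ∈ range (R + 1), gf S (BrT l t) z M ≤ ∑ _t ∈ range (R + 1), (1 : ℝ) :=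
          sum_le_sum fun t _ => gfT_le_one hS l t M hz hb
      _ = _ := by simp
  linarith

end Pool.Agent.Q234.HS
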