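import Pool.Agent.Q234.HS.BrSum

/-! The sum of the masses of the bridges, given a bound for the far walks. -/

set_option autoImplicit false

namespace Pool.Agent.Q234.HS

open Finset Filter Topology

variable {V : Type} [AddCommGroup V]

theorem br_total {S : Set V} (hS : S.Finite) (l : V →+ ℤ) {μ : ℝ} (hμ : 0 < μ)
    (hb : ∀ n, (N S (Br l) n : ℝ) ≤ μ ^ n) (ρ : ℕ → ℝ) (n1 M : ℕ) (B : ℝ) (hρ : 0 ≤ ρ M)
    (hmono : ∀ n, n1 ≤ n → n ≤ M → ρ n ≤ ρ M) (δ : ℕ → ℝ) (hδ0 : ∀ n, 0 ≤ δ n)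
    (hδ : ∑ n ∈ range (M + 1), δ n ≤ B)
    (hfar : ∀ n, n1 ≤ n → n ≤ M → ∀ R : ℕ, ρ n ≤ R →
      (N S (fun w => Br l w ∧ (R : ℤ) < l w.sum) n : ℝ) ≤ δ n * μ ^ n) :
    ∑ n ∈ range (M + 1), (N S (Br l) n : ℝ) / μ ^ n ≤ ρ M + 2 + n1 + B := by
  have hz : (0 : ℝ) ≤ 1 / μ := by positivity
  have e1 : ∀ n, (1 / μ) ^ n = 1 / μ ^ n := fun n => by rw [one_div, inv_pow, one_div]
  have hb' : ∀ n, (N S (Br l) n : ℝ) * (1 / μ) ^ n ≤ 1 := by
    intro n
    rw [e1, mul_one_div, div_le_one (by positivity)]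
    exact hb n
  have h1 := gf_Br_le hS l ⌈ρ M⌉₊ M hz hb'
  have h2 : gf S (Br l) (1 / μ) M = ∑ n ∈ range (M + 1), (N S (Br l) n : ℝ) / μ ^ n := by
    unfold gf
    refine sum_congr rfl fun n _ => ?_
    rw [e1, mul_one_div]
  rw [h2] at h1
  refine h1.trans ?_
  have h3 : (⌈ρ M⌉₊ : ℝ) ≤ ρ M + 1 := (Nat.ceil_lt_add_one hρ).le
  have h4 : gf S (fun w => Br l w ∧ ((⌈ρ M⌉₊ : ℕ) : ℤ) < l w.sum) (1 / μ) M ≤ n1 + B := by
    unfold gf
    have h5 : ∀ n ∈ range (M + 1),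
        (N S (fun w => Br l w ∧ ((⌈ρ M⌉₊ : ℕ) : ℤ) < l w.sum) n : ℝ) * (1 / μ) ^ n ≤
        (if n < n1 then 1 else 0) + δ n := by
      intro n hn
      rw [mem_range] at hn
      split_ifs with h
      · have h6 : (N S (fun w => Br l w ∧ ((⌈ρ M⌉₊ : ℕ) : ℤ) < l w.sum) n : ℝ) * (1 / μ) ^ n ≤ 1 := by
          refine le_trans ?_ (hb' n)
          refine mul_le_mul_of_nonneg_right ?_ (by positivity)
          exact_mod_cast N_mono hS (P := fun w => Br l w ∧ ((⌈ρ M⌉₊ : ℕ) : ℤ) < l w.sum)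
            (Q := Br l) (fun w hw => hw.1) n
        have := hδ0 n
        linarith
      · rw [zero_add, e1, mul_one_div, div_le_iff₀ (by positivity)]
        refine hfar n (by omega) (by omega) _ ?_
        exact (hmono n (by omega) (by omega)).trans (Nat.le_ceil _)
    refine (sum_le_sum h5).trans ?_
    rw [sum_add_distrib]
    refine add_le_add ?_ hδ
    have h6 : ∑ n ∈ range (M + 1), (if n < n1 then (1 : ℝ) else 0) =
        ((range (M + 1)).filter fun n => n < n1).card := by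
      rw [sum_ite, sum_const_zero, add_zero, sum_const, nsmul_eq_mul, mul_one]
    rw [h6]
    have h7 : ((range (M + 1)).filter fun n => n < n1).card ≤ (range n1).card := by
      refine card_le_card fun n hn => ?_
      rw [mem_filter] at hn
      exact mem_range.2 hn.2
    rw [card_range] at h7
    exact_mod_cast h7
  linarith

end Pool.Agent.Q234.HS
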