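import Pool.Agent.Q234.HS.Trans

/-! Pairs of walks separated by a set in a half-space: the convolution is bounded by the extent. -/

set_option autoImplicit false

namespace Pool.Agent.Q234.HS

open Finset

variable {V : Type} [AddCommGroup V]

/-- self-avoiding word which stays in `K` after its start -/
def InK (K : Set V) (w : List V) : Prop := Saw w ∧ ∀ x, x ≠ [] → x <+: w → x.sum ∈ K

/-- self-avoiding word which avoids `K` after its start -/
def OutK (K : Set V) (w : List V) : Prop := Saw w ∧ ∀ x, x ≠ [] → x <+: w → x.sum ∉ K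

/-- the reversed walk -/
def nr (w : List V) : List V := (w.map (fun a => -a)).reverse

theorem nr_nr (w : List V) : nr (nr w) = w := by
  unfold nr
  rw [List.map_reverse, List.reverse_reverse, List.map_map]
  have h6 : ((fun a : V => -a) ∘ fun a : V => -a) = id := by
    funext a
    simp
  rw [h6, List.map_id]

theorem nr_inj {w w' : List V} (h : nr w = nr w') : w = w' := by
  rw [← nr_nr w, h, nr_nr]

theorem nr_length (w : List V) : (nr w).length = w.length := by simp [nr]

theorem nr_ne {w : List V} (h : w ≠ []) : nr w ≠ [] := by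
  intro h1
  apply h
  have h2 := congrArg List.length h1
  rw [nr_length] at h2
  simpa using h2

theorem nr_sum (w : List V) : (nr w).sum = -w.sum := by
  unfold nr
  rw [List.sum_reverse]
  induction w with
  | nil => simp
  | cons a w ih => rw [List.map_cons, List.sum_cons, List.sum_cons, ih, neg_add]

theorem nr_ifx {x w : List V} (h : x <:+: w) : nr x <:+: nr w := by
  unfold nr
  rw [rev_ifx]
  exact h.map _

theorem nr_prefix {x w : List V} (h : x <+: w) : nr x <:+ nr w := by
  unfold nr
  rw [List.reverse_suffix]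
  exact h.map _

theorem nr_suffix {x w : List V} (h : x <:+ w) : nr x <+: nr w := by
  unfold nr
  rw [List.reverse_prefix]
  exact h.map _

theorem Saw.nr {w : List V} (h : Saw w) : Saw (nr w) := by
  intro x hx hw h0
  have h1 := nr_ifx hw
  rw [nr_nr] at h1
  refine h _ (nr_ne hx) h1 ?_
  rw [nr_sum, h0, neg_zero]

theorem mem_nr {S : Set V} (hneg : ∀ a ∈ S, -a ∈ S) {w : List V} (h : ∀ a ∈ w, a ∈ S) :
    ∀ a ∈ nr w, a ∈ S := by
  intro a ha
  unfold nr at ha
  rw [List.mem_reverse, List.mem_map] at ha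
  obtain ⟨b, hb, rfl⟩ := ha
  exact hneg b (h b hb)

theorem InK.suffix {K : Set V} {x z : List V} (h : InK K x) (hz0 : z ≠ []) (hz : z <:+ nr x) :
    -z.sum ∈ K := by
  have h1 := nr_suffix hz
  rw [nr_nr] at h1
  have h2 := h.2 _ (nr_ne hz0) h1
  rwa [nr_sum] at h2

theorem saw_glue {K : Set V} {x y : List V} (hx : InK K x) (hy : OutK K y) :
    Saw (nr x ++ y) := by
  intro u hu hw
  rcases ifx_append_cases hw with h | h | ⟨p, q, rfl, hp0, hq0, hp, hq⟩
  · exact hx.1.nr u hu h
  · exact hy.1 u hu h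
  · intro h0
    have h1 := hx.suffix hp0 hp
    have h2 := hy.2 q hq0 hq
    rw [List.sum_append] at h0
    have h3 : q.sum = -p.sum := by
      rw [eq_neg_iff_add_eq_zero, add_comm]
      exact h0
    exact h2 (by rw [h3]; exact h1)

/-- injectivity of gluing, knowing the level of the cut point -/
theorem glue_inj {l : V →+ ℤ} {K : Set V} (hK : ∀ v ∈ K, 0 < l v) {x y x' y' : List V}
    (hx : InK K x) (hx' : InK K x') (h : nr x ++ y = nr x' ++ y')
    (hl : l x.sum = l x'.sum) : x = x' ∧ y = y' := by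
  rcases List.append_eq_append_iff.1 h with ⟨r, h1, h2⟩ | ⟨r, h1, h2⟩
  · have hr : r = [] := by
      by_contra hr
      have h3 := hK _ (hx'.suffix hr (by rw [h1]; exact List.suffix_append _ _))
      have h4 := congrArg (fun w => l w.sum) h1
      simp only [List.sum_append, nr_sum, map_add, map_neg] at h4
      rw [map_neg] at h3
      omega
    subst hr
    simp at h1 h2
    exact ⟨(nr_inj h1).symm, h2⟩
  · have hr : r = [] := by
      by_contra hr
      have h3 := hK _ (hx.suffix hr (by rw [h1]; exact List.suffix_append _ _))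
      have h4 := congrArg (fun w => l w.sum) h1
      simp only [List.sum_append, nr_sum, map_add, map_neg] at h4
      rw [map_neg] at h3
      omega
    subst hr
    simp at h1 h2
    exact ⟨nr_inj h1, h2.symm⟩

/-- the walk reaches level `-m` -/
def Far (l : V →+ ℤ) (m : ℕ) (w : List V) : Prop := Saw w ∧ ∃ u, u <+: w ∧ l u.sum ≤ -(m : ℤ)

theorem conv_K {S : Set V} (hS : S.Finite) (hneg : ∀ a ∈ S, -a ∈ S) (l : V →+ ℤ) (K : Set V)
    (hK : ∀ v ∈ K, 0 < l v) (n m : ℕ) :
    ∑ p ∈ antidiagonal n, N S (InK K) p.1 * N S (OutK K) p.2 ≤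
      m * N S Saw n + (n + 1) * N S (Far l m) n := by
  classical
  rw [← ncard_WW hS]
  have hfin := finite_WW hS (InK K) (OutK K) n
  set A : Set (List V × List V) := {p ∈ WW S (InK K) (OutK K) n | ¬ Far l m (nr p.1 ++ p.2)}
    with hA
  set B : Set (List V × List V) := {p ∈ WW S (InK K) (OutK K) n | Far l m (nr p.1 ++ p.2)}
    with hB
  have hAB : WW S (InK K) (OutK K) n ⊆ A ∪ B := by
    intro p hp
    by_cases h : Far l m (nr p.1 ++ p.2)
    · exact Or.inr ⟨hp, h⟩
    · exact Or.inl ⟨hp, h⟩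
  have hAf : A.Finite := hfin.subset fun p hp => hp.1
  have hBf : B.Finite := hfin.subset fun p hp => hp.1
  have hmem : ∀ p ∈ WW S (InK K) (OutK K) n, nr p.1 ++ p.2 ∈ W S Saw n := by
    rintro ⟨x, y⟩ ⟨h1, h2, h3, h4, h5⟩
    refine ⟨?_, ?_, saw_glue h4 h5⟩
    · simp only [List.length_append, nr_length]
      exact h1
    · intro a ha
      rcases List.mem_append.1 ha with h | h
      · exact mem_nr hneg h2 a h
      · exact h3 a h
  have hlev : ∀ p ∈ WW S (InK K) (OutK K) n, 0 ≤ l p.1.sum := by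
    rintro ⟨x, y⟩ ⟨h1, h2, h3, h4, h5⟩
    by_cases hx : x = []
    · simp [hx]
    · exact (hK _ (h4.2 x hx (List.prefix_refl x))).le
  have h1 : A.ncard ≤ (W S Saw n ×ˢ ((Finset.range m : Finset ℕ) : Set ℕ)).ncard := by
    refine Set.ncard_le_ncard_of_injOn (fun p => (nr p.1 ++ p.2, (l p.1.sum).toNat)) ?_ ?_
      ((finite_W hS Saw n).prod (Finset.finite_toSet _))
    · rintro p ⟨hp, hnf⟩
      refine ⟨hmem p hp, ?_⟩
      simp only [Finset.coe_range, Set.mem_Iio]
      by_contra hcon
      apply hnf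
      refine ⟨(hmem p hp).2.2, nr p.1, List.prefix_append _ _, ?_⟩
      rw [nr_sum, map_neg]
      have := hlev p hp
      omega
    · rintro p ⟨hp, _⟩ p' ⟨hp', _⟩ he
      simp only [Prod.mk.injEq] at he
      have h2 := hlev p hp
      have h3 := hlev p' hp'
      have h4 := glue_inj hK hp.2.2.2.1 hp'.2.2.2.1 he.1 (by omega)
      exact Prod.ext h4.1 h4.2
  have h2 : B.ncard ≤ (((Finset.range (n + 1) : Finset ℕ) : Set ℕ) ×ˢ W S (Far l m) n).ncard := by
    refine Set.ncard_le_ncard_of_injOn (fun p => (p.1.length, nr p.1 ++ p.2)) ?_ ?_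
      ((Finset.finite_toSet _).prod (finite_W hS (Far l m) n))
    · rintro p ⟨hp, hf⟩
      refine ⟨?_, (hmem p hp).1, (hmem p hp).2.1, hf⟩
      simp only [Finset.coe_range, Set.mem_Iio]
      have := hp.1
      omega
    · rintro p ⟨hp, _⟩ p' ⟨hp', _⟩ he
      simp only [Prod.mk.injEq] at he
      have h3 : (nr p.1).length = (nr p'.1).length := by rw [nr_length, nr_length, he.1]
      obtain ⟨h4, h5⟩ := List.append_inj he.2 h3
      exact Prod.ext (nr_inj h4) h5
  rw [Set.ncard_prod, Set.ncard_coe_finset, Finset.card_range] at h1 h2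
  calc (WW S (InK K) (OutK K) n).ncard ≤ (A ∪ B).ncard :=
        Set.ncard_le_ncard hAB (hAf.union hBf)
    _ ≤ A.ncard + B.ncard := Set.ncard_union_le _ _
    _ ≤ (W S Saw n).ncard * m + (n + 1) * (W S (Far l m) n).ncard := add_le_add h1 h2
    _ = _ := by rw [N, N, mul_comm m]

/-- trivial bound -/
theorem conv_K' {S : Set V} (hS : S.Finite) (hneg : ∀ a ∈ S, -a ∈ S) (l : V →+ ℤ) (K : Set V)
    (hK : ∀ v ∈ K, 0 < l v) (n : ℕ) :
    ∑ p ∈ antidiagonal n, N S (InK K) p.1 * N S (OutK K) p.2 ≤ (n + 1) * N S Saw n := by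
  have h1 := conv_K hS hneg l K hK n 0
  rw [zero_mul, zero_add] at h1
  exact h1.trans (Nat.mul_le_mul_left _ (N_mono hS (fun w hw => hw.1) n))

/-- submultiplicativity -/
theorem N_submul {S : Set V} (hS : S.Finite) (m n : ℕ) :
    N S Saw (m + n) ≤ N S Saw m * N S Saw n := by
  unfold N
  rw [← Set.ncard_prod]
  refine Set.ncard_le_ncard_of_injOn (fun w => (w.take m, w.drop m)) ?_ ?_
    ((finite_W hS Saw m).prod (finite_W hS Saw n))
  · rintro w ⟨h1, h2, h3⟩
    refine ⟨⟨?_, ?_, ?_⟩, ?_, ?_, ?_⟩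
    · rw [List.length_take, h1]
      omega
    · exact fun a ha => h2 a (List.mem_of_mem_take ha)
    · exact h3.sub (List.take_prefix _ _).isInfix
    · rw [List.length_drop, h1]
      omega
    · exact fun a ha => h2 a (List.mem_of_mem_drop ha)
    · exact h3.sub (List.drop_suffix _ _).isInfix
  · intro w _ w' _ he
    simp only [Prod.mk.injEq] at he
    rw [← List.take_append_drop m w, ← List.take_append_drop m w', he.1, he.2]

/-- straight walks are bridges -/
theorem br_replicate {l : V →+ ℤ} {e : V} (he : 0 < l e) (n : ℕ) :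
    Br l (List.replicate n e) := by
  have key : ∀ u, u <:+: List.replicate n e → l u.sum = u.length * l e := by
    intro u hu
    have h1 : u = List.replicate u.length e := by
      rw [List.eq_replicate_iff]
      refine ⟨rfl, fun b hb => ?_⟩
      exact (List.mem_replicate.1 (hu.subset hb)).2
    rw [h1, List.sum_replicate, List.length_replicate, map_nsmul]
    simp
  have key2 : ∀ u, u ≠ [] → u <:+: List.replicate n e → 0 < l u.sum := by
    intro u hu hp
    rw [key u hp]
    have : 0 < u.length := List.length_pos_iff.2 hu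
    positivity
  refine ⟨⟨?_, ?_⟩, ?_⟩
  · intro u hu hp h0
    have h1 := key2 u hu hp
    rw [h0, map_zero] at h1
    exact lt_irrefl _ h1
  · exact fun u hu hp => key2 u hu hp.isInfix
  · intro u hu
    by_cases h0 : u = []
    · simp [h0]
    · exact (key2 u h0 hu.isInfix).le

theorem N_Br_pos {S : Set V} (hS : S.Finite) {l : V →+ ℤ} {e : V} (heS : e ∈ S) (he : 0 < l e)
    (n : ℕ) : 0 < N S (Br l) n := by
  unfold N
  rw [Set.ncard_pos (finite_W hS _ n)]
  refine ⟨List.replicate n e, by simp, ?_, br_replicate he n⟩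
  intro a ha
  rw [(List.mem_replicate.1 ha).2]
  exact heS

theorem N_supermul {S : Set V} (hS : S.Finite) (l : V →+ ℤ) (m n : ℕ) :
    N S (Br l) m * N S (Br l) n ≤ N S (Br l) (m + n) := by
  unfold N
  rw [← Set.ncard_prod]
  refine Set.ncard_le_ncard_of_injOn (fun p => p.1 ++ p.2) ?_ ?_ (finite_W hS _ _)
  · rintro ⟨u, v⟩ ⟨⟨h1, h2, h3⟩, h4, h5, h6⟩
    refine ⟨?_, ?_, half_append h3 h6.1, ?_⟩
    · simp only [List.length_append]
      simp only at h1 h4
      omega
    · intro a ha
      rcases List.mem_append.1 ha with h | h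
      · exact h2 a h
      · exact h5 a h
    · intro x hx
      rcases suffix_append_cases hx with h | ⟨y, rfl, hy⟩
      · exact h6.2 x h
      · rw [List.sum_append, map_add]
        have a1 := h3.2 y hy
        have a2 : 0 ≤ l v.sum := h6.2 v (List.suffix_refl v)
        simp only at a1 a2 ⊢
        omega
  · rintro ⟨u, v⟩ ⟨⟨h1, h2, h3⟩, h4, h5, h6⟩ ⟨u', v'⟩ ⟨⟨k1, k2, k3⟩, k4, k5, k6⟩ he
    simp only at he h1 k1
    obtain ⟨h7, h8⟩ := List.append_inj he (h1.trans k1.symm)
    rw [h7, h8]

end Pool.Agent.Q234.HS
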