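import Mathlib

/-! Words of steps. Self-avoiding words, half-space words, bridges, cuts. -/

set_option autoImplicit false

namespace Pool.Agent.Q234.HS

variable {V : Type} [AddCommGroup V]

/-- self-avoiding word -/
def Saw (w : List V) : Prop := ∀ u, u ≠ [] → u <:+: w → u.sum ≠ 0

/-- word of a strict half-space walk -/
def Half (l : V →+ ℤ) (w : List V) : Prop :=
  Saw w ∧ ∀ u, u ≠ [] → u <+: w → 0 < l u.sum

/-- word of a bridge -/
def Br (l : V →+ ℤ) (w : List V) : Prop :=
  Half l w ∧ ∀ u, u <:+ w → 0 ≤ l u.sum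

/-- the half-space walk can be cut into `u` and `v` -/
def Cut (l : V →+ ℤ) (u v : List V) : Prop :=
  (∀ x, x <:+ u → 0 ≤ l x.sum) ∧ ∀ x, x ≠ [] → x <+: v → 0 < l x.sum

/-- no cut except the trivial one -/
def NC (l : V →+ ℤ) (w : List V) : Prop :=
  ∀ u v, u ++ v = w → Cut l u v → u = []

/-- the word has a cut -/
def HasCut (l : V →+ ℤ) (w : List V) : Prop := ∃ p q, p ++ q = w ∧ Cut l p q

/-- word of a walk in the closed half-space -/
def Wk (l : V →+ ℤ) (w : List V) : Prop :=
  Saw w ∧ ∀ u, u <+: w → 0 ≤ l u.sum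

theorem Saw.sub {u w : List V} (h : Saw w) (hu : u <:+: w) : Saw u :=
  fun x hx hxu => h x hx (hxu.trans hu)

omit [AddCommGroup V] in
theorem rev_ifx {x y : List V} : x.reverse <:+: y.reverse ↔ x <:+: y := by
  constructor
  · rintro ⟨s, t, h⟩
    refine ⟨t.reverse, s.reverse, ?_⟩
    have h1 := congrArg List.reverse h
    rw [List.reverse_append, List.reverse_append, List.reverse_reverse, List.reverse_reverse] at h1
    rw [List.append_assoc]
    exact h1
  · rintro ⟨s, t, rfl⟩
    refine ⟨t.reverse, s.reverse, ?_⟩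
    simp [List.append_assoc]

omit [AddCommGroup V] in
theorem eq_nil_of_ifx {x : List V} (h : x <:+: []) : x = [] := by
  have h1 := h.length_le
  exact List.length_eq_zero_iff.1 (Nat.le_zero.1 h1)

omit [AddCommGroup V] in
theorem ifx_cons_iff {x w : List V} {a : V} : x <:+: a :: w ↔ x <+: a :: w ∨ x <:+: w := by
  constructor
  · rintro ⟨s, t, h⟩
    cases s with
    | nil => exact Or.inl ⟨t, by simpa using h⟩
    | cons b s =>
      right
      rw [List.cons_append, List.cons_append, List.cons.injEq] at h
      exact ⟨s, t, h.2⟩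
  · rintro (h | ⟨s, t, h⟩)
    · exact h.isInfix
    · exact ⟨a :: s, t, by rw [List.cons_append, List.cons_append, h]⟩

omit [AddCommGroup V] in
theorem suffix_append_cases {x u p : List V} (h : x <:+ u ++ p) :
    x <:+ p ∨ ∃ y, x = y ++ p ∧ y <:+ u := by
  rcases List.suffix_or_suffix_of_suffix h (List.suffix_append u p) with h1 | ⟨y, hy⟩
  · exact Or.inl h1
  · right
    refine ⟨y, hy.symm, ?_⟩
    obtain ⟨t, ht⟩ := h
    refine ⟨t, ?_⟩
    rw [← hy, ← List.append_assoc] at ht
    exact List.append_cancel_right ht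

omit [AddCommGroup V] in
theorem prefix_append_cases {x u p : List V} (h : x <+: u ++ p) :
    x <+: u ∨ ∃ y, x = u ++ y ∧ y ≠ [] ∧ y <+: p := by
  rcases List.prefix_or_prefix_of_prefix h (List.prefix_append u p) with h1 | ⟨y, hy⟩
  · exact Or.inl h1
  · by_cases hy0 : y = []
    · left
      rw [hy0, List.append_nil] at hy
      rw [hy]
    · right
      refine ⟨y, hy.symm, hy0, ?_⟩
      obtain ⟨t, ht⟩ := h
      refine ⟨t, ?_⟩
      rw [← hy, List.append_assoc] at ht
      exact List.append_cancel_left ht

omit [AddCommGroup V] in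
theorem ifx_append_cases {x u v : List V} (h : x <:+: u ++ v) :
    x <:+: u ∨ x <:+: v ∨ ∃ y z, x = y ++ z ∧ y ≠ [] ∧ z ≠ [] ∧ y <:+ u ∧ z <+: v := by
  obtain ⟨s, t, hst⟩ := h
  have h1 : s ++ x <+: u ++ v := ⟨t, hst⟩
  rcases prefix_append_cases h1 with h2 | ⟨z, hz, hz0, hzv⟩
  · left
    obtain ⟨t', ht'⟩ := h2
    exact ⟨s, t', ht'⟩
  · right
    have h3 : x <:+ u ++ z := ⟨s, hz⟩
    rcases suffix_append_cases h3 with h4 | ⟨y, hy, hyu⟩
    · left
      exact h4.isInfix.trans hzv.isInfix
    · by_cases hy0 : y = []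
      · left
        rw [hy0, List.nil_append] at hy
        rw [hy]
        exact hzv.isInfix
      · right
        exact ⟨y, z, hy, hy0, hz0, hyu, hzv⟩

/-- Last cut. -/
theorem exists_last (l : V →+ ℤ) (w : List V) (hw : Half l w) :
    ∃ u v, u ++ v = w ∧ Br l u ∧ Half l v ∧ NC l v := by
  classical
  have hex : ∃ k, ∃ u v, u ++ v = w ∧ Cut l u v ∧ v.length = k :=
    ⟨w.length, [], w, rfl, ⟨fun x hx => by rw [List.suffix_nil] at hx; simp [hx], hw.2⟩, rfl⟩
  obtain ⟨u, v, huv, hc, hk⟩ := Nat.find_spec hex
  have hmin := fun m hm => Nat.find_min (m := m) hex hm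
  refine ⟨u, v, huv, ⟨⟨hw.1.sub ⟨[], v, by simpa using huv⟩, ?_⟩, hc.1⟩,
    ⟨hw.1.sub ⟨u, [], by simpa using huv⟩, hc.2⟩, ?_⟩
  · intro x hx hxu
    exact hw.2 x hx (hxu.trans ⟨v, huv⟩)
  · intro p q hpq hcut
    by_contra hp
    have hlt : q.length < Nat.find hex := by
      rw [← hk, ← hpq, List.length_append]
      have : 0 < p.length := List.length_pos_iff.2 hp
      omega
    refine hmin _ hlt ⟨u ++ p, q, ?_, ⟨?_, hcut.2⟩, rfl⟩
    · rw [List.append_assoc, hpq, huv]
    · intro x hx
      rcases suffix_append_cases hx with h | ⟨y, rfl, hy⟩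
      · exact hcut.1 x h
      · rw [List.sum_append, map_add]
        have h1 := hc.1 y hy
        have h2 : 0 ≤ l p.sum := hcut.1 p (List.suffix_refl p)
        omega

theorem Saw.reverse {w : List V} (h : Saw w) : Saw w.reverse := by
  intro x hx hxw
  have h1 : x.reverse <:+: w := by
    rw [← rev_ifx, List.reverse_reverse]
    exact hxw
  have h2 := h x.reverse (by simpa using hx) h1
  rwa [List.sum_reverse] at h2

theorem Wk.suffix {l : V →+ ℤ} {g : List V} (h : Wk l g) :
    ∀ x, x <:+ g.reverse → 0 ≤ l x.sum := by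
  intro x hx
  have h1 : x.reverse <+: g := by
    rw [← List.reverse_suffix, List.reverse_reverse]
    exact hx
  have h2 := h.2 _ h1
  rwa [List.sum_reverse] at h2

/-- gluing: all suffixes of the first word have level `≥ 0`, all nonempty prefixes of the second
word have level `> 0` -/
theorem saw_append {l : V →+ ℤ} {p q : List V} (hp : Saw p) (hq : Saw q) (hc : Cut l p q) :
    Saw (p ++ q) := by
  intro x hx hxw
  rcases ifx_append_cases hxw with h | h | ⟨y, z, rfl, hy0, hz0, hy, hz⟩
  · exact hp x hx h
  · exact hq x hx h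
  · intro h0
    have h1 := hc.1 y hy
    have h2 := hc.2 z hz0 hz
    have h3 : l (y ++ z).sum = 0 := by rw [h0, map_zero]
    rw [List.sum_append, map_add] at h3
    omega

/-- a bridge followed by a half-space walk is a half-space walk -/
theorem half_append {l : V →+ ℤ} {u v : List V} (hu : Br l u) (hv : Half l v) :
    Half l (u ++ v) := by
  refine ⟨saw_append hu.1.1 hv.1 ⟨hu.2, hv.2⟩, ?_⟩
  intro x hx hxw
  rcases prefix_append_cases hxw with h | ⟨y, rfl, hy0, hy⟩
  · exact hu.1.2 x hx h
  · rw [List.sum_append, map_add]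
    have h1 := hu.2 u (List.suffix_refl u)
    have h2 := hv.2 y hy0 hy
    omega

/-- uniqueness of the last cut -/
theorem last_unique {l : V →+ ℤ} {p q p' q' : List V} (h : p ++ q = p' ++ q')
    (hp : ∀ x, x <:+ p → 0 ≤ l x.sum) (hp' : ∀ x, x <:+ p' → 0 ≤ l x.sum)
    (hq : Half l q) (hq' : Half l q') (nq : NC l q) (nq' : NC l q') : p = p' ∧ q = q' := by
  rcases List.append_eq_append_iff.1 h with ⟨r, h1, h2⟩ | ⟨r, h1, h2⟩
  · -- p' = p ++ r, q = r ++ q'
    have hr : r = [] := by
      refine nq r q' h2.symm ⟨?_, hq'.2⟩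
      intro x hx
      refine hp' x ?_
      rw [h1]
      exact hx.trans (List.suffix_append p r)
    subst hr
    simp at h1 h2
    exact ⟨h1.symm, h2⟩
  · have hr : r = [] := by
      refine nq' r q h2.symm ⟨?_, hq.2⟩
      intro x hx
      refine hp x ?_
      rw [h1]
      exact hx.trans (List.suffix_append p' r)
    subst hr
    simp at h1 h2
    exact ⟨h1, h2.symm⟩

/-- Last cut of a walk which has a cut. -/
theorem exists_last_cut (l : V →+ ℤ) (w : List V) (hw : Saw w) (hb : HasCut l w) :
    ∃ p v, p ++ v = w ∧ Wk l p.reverse ∧ Half l v ∧ NC l v := by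
  classical
  have hex : ∃ k, ∃ u v, u ++ v = w ∧ Cut l u v ∧ v.length = k := by
    obtain ⟨p, q, h1, h2⟩ := hb
    exact ⟨q.length, p, q, h1, h2, rfl⟩
  obtain ⟨u, v, huv, hc, hk⟩ := Nat.find_spec hex
  have hmin := fun m hm => Nat.find_min (m := m) hex hm
  have hsu : Saw u := hw.sub ⟨[], v, by simpa using huv⟩
  refine ⟨u, v, huv, ⟨hsu.reverse, ?_⟩, ⟨hw.sub ⟨u, [], by simpa using huv⟩, hc.2⟩, ?_⟩
  · intro x hxu
    have h1 : x.reverse <:+ u := by
      rw [← List.reverse_prefix, List.reverse_reverse]
      exact hxu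
    have h2 := hc.1 x.reverse h1
    rwa [List.sum_reverse] at h2
  · intro p q hpq hcut
    by_contra hp
    have hlt : q.length < Nat.find hex := by
      rw [← hk, ← hpq, List.length_append]
      have : 0 < p.length := List.length_pos_iff.2 hp
      omega
    refine hmin _ hlt ⟨u ++ p, q, ?_, ⟨?_, hcut.2⟩, rfl⟩
    · rw [List.append_assoc, hpq, huv]
    · intro x hx
      rcases suffix_append_cases hx with h | ⟨y, rfl, hy⟩
      · exact hcut.1 x h
      · rw [List.sum_append, map_add]
        have h1 := hc.1 y hy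
        have h2 : 0 ≤ l p.sum := hcut.1 p (List.suffix_refl p)
        omega

/-- Last minimum (Hammersley–Welsh): every word is a reversed... -/
theorem exists_min (l : V →+ ℤ) (w : List V) :
    ∃ p q, p ++ q = w ∧ (∀ x, x <:+ p → l x.sum ≤ 0) ∧ ∀ x, x ≠ [] → x <+: q → 0 < l x.sum := by
  induction w using List.reverseRecOn with
  | nil =>
    refine ⟨[], [], rfl, ?_, ?_⟩
    · intro x hx
      rw [List.suffix_nil] at hx
      simp [hx]
    · intro x hx h
      exact absurd (List.prefix_nil.1 h) hx
  | append_singleton w a ih =>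
    obtain ⟨p, q, hpq, h1, h2⟩ := ih
    by_cases h3 : 0 < l (q ++ [a]).sum
    · refine ⟨p, q ++ [a], by rw [← List.append_assoc, hpq], h1, ?_⟩
      intro x hx hxp
      rcases prefix_append_cases hxp with h | ⟨y, rfl, hy0, hy⟩
      · exact h2 x hx h
      · have : y = [a] := by
          rcases List.prefix_cons_iff.1 hy with h | ⟨t, ht, ht2⟩
          · exact absurd h hy0
          · rw [List.prefix_nil] at ht2
            rw [ht, ht2]
        rw [this]
        exact h3
    · refine ⟨p ++ (q ++ [a]), [], by rw [List.append_nil, ← List.append_assoc, hpq], ?_, ?_⟩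
      · intro x hx
        rcases suffix_append_cases hx with h | ⟨y, rfl, hy⟩
        · -- `x` is a suffix of `q ++ [a]`: `sum (q ++ [a]) ≤ 0`, prefix part `≥ 0`
          obtain ⟨t, ht⟩ := h
          by_cases ht0 : t = []
          · rw [ht0, List.nil_append] at ht
            rw [ht]
            omega
          · by_cases hx0 : x = []
            · simp [hx0]
            · have htq : t <+: q := by
                have : t <+: q ++ [a] := ⟨x, ht⟩
                rcases prefix_append_cases this with h | ⟨y, hy, hy0, hy'⟩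
                · exact h
                · exfalso
                  have h5 := congrArg List.length ht
                  have h6 := congrArg List.length hy
                  have h7 : 0 < x.length := List.length_pos_iff.2 hx0
                  have h8 : 0 < y.length := List.length_pos_iff.2 hy0
                  simp at h5 h6
                  omega
              have h4 := h2 t ht0 htq
              have h5 : l (t ++ x).sum ≤ 0 := by rw [ht]; omega
              rw [List.sum_append, map_add] at h5
              omega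
        · have h4 := h1 y hy
          rw [List.sum_append, map_add]
          omega
      · intro x hx h
        exact absurd (List.prefix_nil.1 h) hx

end Pool.Agent.Q234.HS
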