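import Pool.Agent.Q234.HS.Core

/-! Counting words; the exact convolution identity. -/

set_option autoImplicit false

namespace Pool.Agent.Q234.HS

open Finset

variable {V : Type}

/-- words of length `n` over the alphabet `S` with property `P` -/
def W (S : Set V) (P : List V → Prop) (n : ℕ) : Set (List V) :=
  {w | w.length = n ∧ (∀ a ∈ w, a ∈ S) ∧ P w}

/-- their number -/
noncomputable def N (S : Set V) (P : List V → Prop) (n : ℕ) : ℕ := (W S P n).ncard

theorem finite_words {S : Set V} (hS : S.Finite) (n : ℕ) :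
    {w : List V | w.length = n ∧ ∀ a ∈ w, a ∈ S}.Finite := by
  have h1 : (Set.pi Set.univ (fun _ : Fin n => S)).Finite := Set.Finite.pi' (fun _ => hS) |>.subset
    (fun f hf i => hf i (Set.mem_univ i))
  refine (h1.image List.ofFn).subset ?_
  rintro w ⟨hw, ha⟩
  subst hw
  exact ⟨fun i => w.get i, fun i _ => ha _ (List.get_mem w i), List.ofFn_get w⟩

theorem finite_W {S : Set V} (hS : S.Finite) (P : List V → Prop) (n : ℕ) : (W S P n).Finite :=
  (finite_words hS n).subset fun _ h => ⟨h.1, h.2.1⟩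

/-- pairs -/
def WW (S : Set V) (P Q : List V → Prop) (n : ℕ) : Set (List V × List V) :=
  {p | p.1.length + p.2.length = n ∧ (∀ a ∈ p.1, a ∈ S) ∧ (∀ a ∈ p.2, a ∈ S) ∧ P p.1 ∧ Q p.2}

theorem WW_eq (S : Set V) (P Q : List V → Prop) (n : ℕ) :
    WW S P Q n = ⋃ p ∈ antidiagonal n, W S P p.1 ×ˢ W S Q p.2 := by
  ext ⟨u, v⟩
  simp only [WW, W, Set.mem_ofPred_eq, Set.mem_iUnion, Set.mem_prod,
    HasAntidiagonal.mem_antidiagonal, exists_prop,
    Prod.exists]
  constructor
  · rintro ⟨h1, h2, h3, h4, h5⟩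
    exact ⟨_, _, h1, ⟨rfl, h2, h4⟩, rfl, h3, h5⟩
  · rintro ⟨i, j, hij, ⟨rfl, h2, h4⟩, rfl, h3, h5⟩
    exact ⟨hij, h2, h3, h4, h5⟩

theorem finite_WW {S : Set V} (hS : S.Finite) (P Q : List V → Prop) (n : ℕ) :
    (WW S P Q n).Finite := by
  rw [WW_eq]
  exact (antidiagonal n).finite_toSet.biUnion fun p _ =>
    (finite_W hS P p.1).prod (finite_W hS Q p.2)

theorem ncard_WW {S : Set V} (hS : S.Finite) (P Q : List V → Prop) (n : ℕ) :
    (WW S P Q n).ncard = ∑ p ∈ antidiagonal n, N S P p.1 * N S Q p.2 := by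
  classical
  have hf := finite_WW hS P Q n
  have h1 : hf.toFinset = (antidiagonal n).biUnion fun p =>
      (finite_W hS P p.1).toFinset ×ˢ (finite_W hS Q p.2).toFinset := by
    ext ⟨u, v⟩
    rw [Set.Finite.mem_toFinset, WW_eq]
    simp only [Set.mem_iUnion, mem_biUnion, mem_product, Set.Finite.mem_toFinset, Set.mem_prod,
      exists_prop]
  rw [Set.ncard_eq_toFinset_card _ hf, h1, card_biUnion]
  · refine sum_congr rfl fun p _ => ?_
    rw [card_product, N, N, Set.ncard_eq_toFinset_card _ (finite_W hS P p.1),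
      Set.ncard_eq_toFinset_card _ (finite_W hS Q p.2)]
  · intro p _ q _ hpq
    rw [Function.onFun, Finset.disjoint_left]
    rintro ⟨u, v⟩ h2 h3
    rw [mem_product] at h2 h3
    simp only [Set.Finite.mem_toFinset] at h2 h3
    apply hpq
    exact Prod.ext (h2.1.1.symm.trans h3.1.1) (h2.2.1.symm.trans h3.2.1)

variable [AddCommGroup V]

/-- triples bridge, closed half-space word, half-space word without cut -/
def TT (S : Set V) (l : V →+ ℤ) (n : ℕ) : Set (List V × List V × List V) :=
  {t | t.1.length + t.2.1.length + t.2.2.length = n ∧ (∀ a ∈ t.1, a ∈ S) ∧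
    (∀ a ∈ t.2.1, a ∈ S) ∧ (∀ a ∈ t.2.2, a ∈ S) ∧ Br l t.1 ∧ Wk l t.2.1 ∧
    Half l t.2.2 ∧ NC l t.2.2}

theorem image1 (S : Set V) (l : V →+ ℤ) (n : ℕ) :
    (fun t : List V × List V × List V => (t.2.1, t.1 ++ t.2.2)) '' TT S l n =
      WW S (Wk l) (Half l) n := by
  ext ⟨g, h⟩
  constructor
  · rintro ⟨⟨u, g', v⟩, ⟨h1, h2, h3, h4, h5, h6, h7, h8⟩, he⟩
    simp only [Prod.mk.injEq] at he
    obtain ⟨rfl, rfl⟩ := he
    simp only at h1 h2 h3 h4 h5 h6 h7 h8
    refine ⟨?_, h3, ?_, h6, half_append h5 h7⟩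
    · simp only [List.length_append]
      omega
    · intro a ha
      rcases List.mem_append.1 ha with h | h
      · exact h2 a h
      · exact h4 a h
  · rintro ⟨h1, h2, h3, h4, h5⟩
    obtain ⟨u, v, huv, hu, hv, hnc⟩ := exists_last l h h5
    refine ⟨⟨u, g, v⟩, ⟨?_, ?_, h2, ?_, hu, h4, hv, hnc⟩, ?_⟩
    · simp only at h1 ⊢
      rw [← huv, List.length_append] at h1
      omega
    · intro a ha
      exact h3 a (by rw [← huv]; exact List.mem_append_left _ ha)
    · intro a ha
      exact h3 a (by rw [← huv]; exact List.mem_append_right _ ha)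
    · simp [huv]

theorem inj1 (S : Set V) (l : V →+ ℤ) (n : ℕ) :
    Set.InjOn (fun t : List V × List V × List V => (t.2.1, t.1 ++ t.2.2)) (TT S l n) := by
  rintro ⟨u, g, v⟩ ⟨h1, h2, h3, h4, h5, h6, h7, h8⟩ ⟨u', g', v'⟩
    ⟨k1, k2, k3, k4, k5, k6, k7, k8⟩ he
  simp only [Prod.mk.injEq] at he
  obtain ⟨rfl, he⟩ := he
  obtain ⟨rfl, rfl⟩ := last_unique he h5.2 k5.2 h7 k7 h8 k8
  rfl

theorem image2 (S : Set V) (l : V →+ ℤ) (n : ℕ) :
    (fun t : List V × List V × List V => (t.1, t.2.1.reverse ++ t.2.2)) '' TT S l n =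
      WW S (Br l) (fun w => Saw w ∧ HasCut l w) n := by
  ext ⟨b, s⟩
  constructor
  · rintro ⟨⟨u, g, v⟩, ⟨h1, h2, h3, h4, h5, h6, h7, h8⟩, he⟩
    simp only [Prod.mk.injEq] at he
    obtain ⟨rfl, rfl⟩ := he
    simp only at h1 h2 h3 h4 h5 h6 h7 h8
    have hcut : Cut l g.reverse v := ⟨h6.suffix, h7.2⟩
    refine ⟨?_, h2, ?_, h5, saw_append h6.1.reverse h7.1 hcut, _, _, rfl, hcut⟩
    · simp only [List.length_append, List.length_reverse]
      omega
    · intro a ha
      rcases List.mem_append.1 ha with h | h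
      · exact h3 a (List.mem_reverse.1 h)
      · exact h4 a h
  · rintro ⟨h1, h2, h3, h4, h5, h6⟩
    obtain ⟨p, v, hpv, hp, hv, hnc⟩ := exists_last_cut l s h5 h6
    refine ⟨⟨b, p.reverse, v⟩, ⟨?_, h2, ?_, ?_, h4, hp, hv, hnc⟩, ?_⟩
    · simp only [List.length_reverse] at h1 ⊢
      rw [← hpv, List.length_append] at h1
      omega
    · intro a ha
      exact h3 a (by rw [← hpv]; exact List.mem_append_left _ (List.mem_reverse.1 ha))
    · intro a ha
      exact h3 a (by rw [← hpv]; exact List.mem_append_right _ ha)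
    · simp [hpv]

theorem inj2 (S : Set V) (l : V →+ ℤ) (n : ℕ) :
    Set.InjOn (fun t : List V × List V × List V => (t.1, t.2.1.reverse ++ t.2.2)) (TT S l n) := by
  rintro ⟨u, g, v⟩ ⟨h1, h2, h3, h4, h5, h6, h7, h8⟩ ⟨u', g', v'⟩
    ⟨k1, k2, k3, k4, k5, k6, k7, k8⟩ he
  simp only [Prod.mk.injEq] at he
  obtain ⟨rfl, he⟩ := he
  obtain ⟨h9, rfl⟩ := last_unique he h6.suffix k6.suffix h7 k7 h8 k8
  rw [List.reverse_inj] at h9
  subst h9
  rfl

/-- The exact identity: closed half-space words convolved with half-space words are bridges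
convolved with words which have a cut. -/
theorem identity {S : Set V} (hS : S.Finite) (l : V →+ ℤ) (n : ℕ) :
    ∑ p ∈ antidiagonal n, N S (Wk l) p.1 * N S (Half l) p.2 =
      ∑ p ∈ antidiagonal n, N S (Br l) p.1 * N S (fun w => Saw w ∧ HasCut l w) p.2 := by
  rw [← ncard_WW hS, ← ncard_WW hS, ← image1 S l n, ← image2 S l n,
    (inj1 S l n).ncard_image, (inj2 S l n).ncard_image]

omit [AddCommGroup V] in
theorem N_mono {S : Set V} (hS : S.Finite) {P Q : List V → Prop} (h : ∀ w, P w → Q w) (n : ℕ) :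
    N S P n ≤ N S Q n :=
  Set.ncard_le_ncard (fun _ hw => ⟨hw.1, hw.2.1, h _ hw.2.2⟩) (finite_W hS Q n)

/-- Hammersley–Welsh: a self-avoiding word is cut at its last minimum. -/
theorem min_le {S : Set V} (hS : S.Finite) (hneg : ∀ a ∈ S, -a ∈ S) (l : V →+ ℤ) (n : ℕ) :
    N S Saw n ≤ ∑ p ∈ antidiagonal n, N S (Wk l) p.1 * N S (Half l) p.2 := by
  classical
  rw [← ncard_WW hS]
  choose P Q h1 h2 h3 using exists_min l
  refine Set.ncard_le_ncard_of_injOn (fun w => ((P w).reverse.map (fun a => -a), Q w)) ?_ ?_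
    (finite_WW hS _ _ n)
  · rintro w ⟨hw, hwS, hs⟩
    have hsP : Saw (P w) := hs.sub ⟨[], Q w, by simpa using h1 w⟩
    have hsQ : Saw (Q w) := hs.sub ⟨P w, [], by simpa using h1 w⟩
    have hsum : ∀ x : List V, (x.map fun a => -a).sum = -x.sum := by
      intro x
      induction x with
      | nil => simp
      | cons a x ih =>
        rw [List.map_cons, List.sum_cons, List.sum_cons, ih, neg_add]
    have hmap : ∀ (x y : List V), x <:+: y.map (fun a => -a) → ∃ x', x' <:+: y ∧
        x = x'.map (fun a => -a) := by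
      intro x y hx
      refine ⟨x.map (fun a => -a), ?_, ?_⟩
      · have h5 := hx.map (fun a : V => -a)
        rw [List.map_map] at h5
        have h6 : ((fun a : V => -a) ∘ fun a : V => -a) = id := by
          funext a
          simp
        rwa [h6, List.map_id] at h5
      · rw [List.map_map]
        have h6 : ((fun a : V => -a) ∘ fun a : V => -a) = id := by
          funext a
          simp
        rw [h6, List.map_id]
    refine ⟨?_, ?_, ?_, ⟨?_, ?_⟩, hsQ, h3 w⟩
    · simp only [List.length_map, List.length_reverse]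
      rw [← List.length_append, h1 w, hw]
    · intro a ha
      obtain ⟨b, hb, rfl⟩ := List.mem_map.1 ha
      exact hneg b (hwS b (by
        rw [← h1 w]
        exact List.mem_append_left _ (List.mem_reverse.1 hb)))
    · intro a ha
      exact hwS a (by rw [← h1 w]; exact List.mem_append_right _ ha)
    · intro x hx hxp
      obtain ⟨x', hx', rfl⟩ := hmap x _ hxp
      rw [hsum]
      have hx0 : x' ≠ [] := by
        intro h
        exact hx (by rw [h]; rfl)
      exact neg_ne_zero.2 (hsP.reverse x' hx0 hx')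
    · intro x hx
      obtain ⟨t, ht⟩ := hx
      have h5 : x.map (fun a : V => -a) <+: (P w).reverse := by
        refine ⟨t.map (fun a => -a), ?_⟩
        rw [← List.map_append, ht, List.map_map]
        have h6 : ((fun a : V => -a) ∘ fun a : V => -a) = id := by
          funext a
          simp
        rw [h6, List.map_id]
      have h6 : (x.map (fun a : V => -a)).reverse <:+ P w := by
        rw [← List.reverse_prefix, List.reverse_reverse]
        exact h5
      have h7 := h2 w _ h6
      rw [List.sum_reverse, hsum, map_neg] at h7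
      omega
  · intro w _ w' _ he
    simp only [Prod.mk.injEq] at he
    obtain ⟨h5, h6⟩ := he
    have h7 : (P w).reverse = (P w').reverse :=
      (List.map_injective_iff.2 neg_injective) h5
    rw [List.reverse_inj] at h7
    rw [← h1 w, ← h1 w', h6, h7]

end Pool.Agent.Q234.HS
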