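import Mathlib

/-! Statements of lemma jobs of the project HS (half-space self-avoiding walks). -/

set_option autoImplicit false

namespace Pool.Agent.Q234.HS

open Filter Topology

/-- Pointwise exponents give the exponents of the partial sums. -/
def S_exp : Prop := ∀ (a : ℕ → ℝ) (α : ℝ), (∀ n, 0 < a n) →
  Tendsto (fun n : ℕ => Real.log (a n) / Real.log n) atTop (𝓝 (α - 1)) →
  Tendsto (fun n : ℕ => Real.log (∑ k ∈ Finset.range (n + 1), a k) / Real.log n) atTop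
    (𝓝 (max α 0))

/-- Bounds with a power of the logarithm. -/
def S_fin3 : Prop := ∀ (c1 : ℝ) (N0 : ℕ), 0 < c1 → ∃ κ K : ℝ, 0 < κ ∧ 0 < K ∧
  ∀ f : ℕ → ℝ, (∀ n, f n ≤ n + 1) →
    (∀ n : ℕ, N0 ≤ n → f n ≤ n / Real.log n ^ c1 + 2 + (n + 1) * Real.exp (-(n : ℝ) ^ (1 / 2 : ℝ))) →
    (∀ n : ℕ, 2 ≤ n → f n ≤ K * (n / Real.log n ^ κ)) ∧
    (∀ N : ℕ, 2 ≤ N → ∑ n ∈ Finset.range (2 * N + 1), f n ≤ K * ((N : ℝ) ^ 2 / Real.log N ^ κ))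

/-- Bounds with an almost power. -/
def S_fin2 : Prop := ∀ c1 C : ℝ, 0 < c1 → 0 < C → ∃ κ K : ℝ, 0 < κ ∧ 0 < K ∧
  ∀ f : ℕ → ℝ, (∀ n, f n ≤ n + 1) →
    (∀ n : ℕ, 16 ≤ n → f n ≤ C * (n : ℝ) ^ (1 - c1 / Real.log (Real.log n)) + 2 +
      (n + 1) * (C * Real.exp (-(n : ℝ) ^ (4 / 5 : ℝ)))) →
    (∀ n : ℕ, 16 ≤ n → f n ≤ K * (n : ℝ) ^ (1 - κ / Real.log (Real.log n))) ∧
    (∀ N : ℕ, 16 ≤ N → ∑ n ∈ Finset.range (2 * N + 1), f n ≤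
      K * (N : ℝ) ^ (2 - κ / Real.log (Real.log N)))

end Pool.Agent.Q234.HS
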