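import Pool.Agent.Q234.HS.Unf
import Pool.Agent.Q234.HS.Stm

/-! Exponents. -/

set_option autoImplicit false

namespace Pool.Agent.Q234.HS

open Finset Filter Topology

/-- the normalised numbers of walks, half-space walks, bridges and walks with a cut -/
structure Dat (c h b a : ℕ → ℝ) (μ : ℝ) : Prop where
  mu : 0 < μ
  c_one : ∀ n, 1 ≤ c n
  h_zero : 1 ≤ h 0
  h_pos : ∀ n, 0 < h n
  b_pos : ∀ n, 0 < b n
  b_le : ∀ n, b n ≤ 1
  a_pos : ∀ n, 0 < a n
  a_le : ∀ n, a n ≤ c n
  hw : ∀ n, c n ≤ ∑ p ∈ antidiagonal n, (μ * h (p.1 + 1)) * h p.2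
  id : ∀ n, ∑ p ∈ antidiagonal n, (μ * h (p.1 + 1)) * h p.2 =
    ∑ p ∈ antidiagonal n, b p.1 * a p.2
  unf : ∀ N, ∑ n ∈ range (N + 1), h n ≤ Real.exp (∑ n ∈ range (N + 1), b n)

/-- partial sums -/
def ps (f : ℕ → ℝ) (N : ℕ) : ℝ := ∑ n ∈ range (N + 1), f n

theorem ps_mono {f : ℕ → ℝ} (hf : ∀ n, 0 ≤ f n) {M N : ℕ} (h : M ≤ N) : ps f M ≤ ps f N :=
  sum_le_sum_of_subset_of_nonneg (range_mono (by omega)) fun n _ _ => hf n

theorem ps_pos {f : ℕ → ℝ} (hf : ∀ n, 0 < f n) (N : ℕ) : 0 < ps f N :=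
  sum_pos (fun n _ => hf n) ⟨0, by simp⟩

theorem ps_shift (f : ℕ → ℝ) (μ : ℝ) (N : ℕ) :
    ps (fun n => μ * f (n + 1)) N = μ * (ps f (N + 1) - f 0) := by
  unfold ps
  rw [← mul_sum, sum_range_succ' f (N + 1)]
  ring

theorem shift_two {F : ℕ → ℝ} {α : ℝ}
    (h : Tendsto (fun N : ℕ => Real.log (F N) / Real.log N) atTop (𝓝 α)) :
    Tendsto (fun N : ℕ => Real.log (F (2 * N)) / Real.log N) atTop (𝓝 α) := by
  have h1 : Tendsto (fun N : ℕ => 2 * N) atTop atTop :=
    tendsto_id.const_mul_atTop' (by norm_num)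
  have h2 := h.comp h1
  have h3 : Tendsto (fun N : ℕ => Real.log ((2 * N : ℕ) : ℝ) / Real.log N) atTop (𝓝 1) := by
    have t1 : Tendsto (fun N : ℕ => Real.log (N : ℝ)) atTop atTop :=
      Real.tendsto_log_atTop.comp tendsto_natCast_atTop_atTop
    have t2 : Tendsto (fun N : ℕ => Real.log 2 / Real.log (N : ℝ) + 1) atTop (𝓝 (0 + 1)) :=
      (t1.const_div_atTop _).add_const 1
    rw [zero_add] at t2
    refine t2.congr' ?_
    filter_upwards [eventually_ge_atTop 2] with N hN
    have hN' : (1 : ℝ) < N := by exact_mod_cast hN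
    have := Real.log_pos hN'
    push_cast
    rw [Real.log_mul (by norm_num) (by linarith)]
    field_simp
  have h4 := h2.mul h3
  rw [mul_one] at h4
  refine h4.congr' ?_
  filter_upwards [eventually_ge_atTop 2] with N hN
  have hN' : (1 : ℝ) < N := by exact_mod_cast hN
  have h5 := Real.log_pos hN'
  have h6 : 0 < Real.log ((2 * N : ℕ) : ℝ) := by
    apply Real.log_pos
    push_cast
    linarith
  simp only [Function.comp_apply]
  field_simp

theorem shift_one {F : ℕ → ℝ} {α : ℝ}
    (h : Tendsto (fun N : ℕ => Real.log (F N) / Real.log N) atTop (𝓝 α)) :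
    Tendsto (fun N : ℕ => Real.log (F (N + 1)) / Real.log N) atTop (𝓝 α) := by
  have h1 : Tendsto (fun N : ℕ => N + 1) atTop atTop := tendsto_add_atTop_nat 1
  have h2 := h.comp h1
  have h3 : Tendsto (fun N : ℕ => Real.log ((N + 1 : ℕ) : ℝ) / Real.log N) atTop (𝓝 1) := by
    have t1 : Tendsto (fun N : ℕ => Real.log (N : ℝ)) atTop atTop :=
      Real.tendsto_log_atTop.comp tendsto_natCast_atTop_atTop
    have t2 : Tendsto (fun N : ℕ => Real.log 2 / Real.log (N : ℝ) + 1) atTop (𝓝 (0 + 1)) :=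
      (t1.const_div_atTop _).add_const 1
    rw [zero_add] at t2
    refine tendsto_of_tendsto_of_tendsto_of_le_of_le' tendsto_const_nhds t2 ?_ ?_
    · filter_upwards [eventually_ge_atTop 2] with N hN
      have hN' : (1 : ℝ) < N := by exact_mod_cast hN
      have := Real.log_pos hN'
      rw [le_div_iff₀ this, one_mul]
      apply Real.log_le_log (by linarith)
      push_cast
      linarith
    · filter_upwards [eventually_ge_atTop 2] with N hN
      have hN' : (1 : ℝ) < N := by exact_mod_cast hN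
      have h5 := Real.log_pos hN'
      have h6 : Real.log ((N + 1 : ℕ) : ℝ) ≤ Real.log 2 + Real.log N := by
        rw [← Real.log_mul (by norm_num) (by linarith)]
        apply Real.log_le_log (by push_cast; linarith)
        push_cast
        linarith
      rw [div_add_one h5.ne']
      gcongr
  have h4 := h2.mul h3
  rw [mul_one] at h4
  refine h4.congr' ?_
  filter_upwards [eventually_ge_atTop 2] with N hN
  have hN' : (1 : ℝ) < N := by exact_mod_cast hN
  have h5 := Real.log_pos hN'
  have h6 : 0 < Real.log ((N + 1 : ℕ) : ℝ) := by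
    apply Real.log_pos
    push_cast
    linarith
  simp only [Function.comp_apply]
  field_simp

theorem shift_half {F : ℕ → ℝ} {α : ℝ}
    (h : Tendsto (fun N : ℕ => Real.log (F N) / Real.log N) atTop (𝓝 α)) :
    Tendsto (fun N : ℕ => Real.log (F (N / 2)) / Real.log N) atTop (𝓝 α) := by
  have h1 : Tendsto (fun N : ℕ => N / 2) atTop atTop :=
    Nat.tendsto_div_const_atTop (by norm_num)
  have h2 := h.comp h1
  have h3 : Tendsto (fun N : ℕ => Real.log ((N / 2 : ℕ) : ℝ) / Real.log N) atTop (𝓝 1) := by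
    have t1 : Tendsto (fun N : ℕ => Real.log (N : ℝ)) atTop atTop :=
      Real.tendsto_log_atTop.comp tendsto_natCast_atTop_atTop
    have t2 : Tendsto (fun N : ℕ => 1 - Real.log 3 / Real.log (N : ℝ)) atTop (𝓝 (1 - 0)) :=
      (t1.const_div_atTop _).const_sub 1
    rw [sub_zero] at t2
    refine tendsto_of_tendsto_of_tendsto_of_le_of_le' t2 tendsto_const_nhds ?_ ?_
    · filter_upwards [eventually_ge_atTop 3] with N hN
      have hN' : (3 : ℝ) ≤ N := by exact_mod_cast hN
      have h5 : 0 < Real.log (N : ℝ) := Real.log_pos (by linarith)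
      have h6 : Real.log N - Real.log 3 ≤ Real.log ((N / 2 : ℕ) : ℝ) := by
        rw [← Real.log_div (by linarith) (by norm_num)]
        apply Real.log_le_log (by positivity)
        have h7 : N ≤ 3 * (N / 2) := by omega
        have h8 : (N : ℝ) ≤ 3 * ((N / 2 : ℕ) : ℝ) := by exact_mod_cast h7
        linarith
      rw [le_div_iff₀ h5, sub_mul, one_mul, div_mul_cancel₀ _ h5.ne']
      exact h6
    · filter_upwards [eventually_ge_atTop 3] with N hN
      have hN' : (3 : ℝ) ≤ N := by exact_mod_cast hN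
      have h5 : 0 < Real.log (N : ℝ) := Real.log_pos (by linarith)
      rw [div_le_one h5]
      apply Real.log_le_log
      · have : 1 ≤ N / 2 := by omega
        exact_mod_cast this
      · have : N / 2 ≤ N := by omega
        exact_mod_cast this
  have h4 := h2.mul h3
  rw [mul_one] at h4
  refine h4.congr' ?_
  filter_upwards [eventually_ge_atTop 4] with N hN
  have hN' : (4 : ℝ) ≤ N := by exact_mod_cast hN
  have h5 : 0 < Real.log (N : ℝ) := Real.log_pos (by linarith)
  have h6 : 0 < Real.log ((N / 2 : ℕ) : ℝ) := by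
    apply Real.log_pos
    have : 2 ≤ N / 2 := by omega
    have : (2 : ℝ) ≤ ((N / 2 : ℕ) : ℝ) := by exact_mod_cast this
    linarith
  simp only [Function.comp_apply]
  field_simp

variable {c h b a : ℕ → ℝ} {μ : ℝ}

theorem Dat.C_le (D : Dat c h b a μ) (N : ℕ) : ps c N ≤ μ * ps h (N + 1) ^ 2 := by
  have hμ := D.mu
  have h1 : ps c N ≤ ps (fun n => μ * h (n + 1)) N * ps h N := by
    refine le_trans (sum_le_sum fun n _ => D.hw n) ?_
    exact conv_le_mul (f := fun n => μ * h (n + 1)) (g := h)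
      (fun n => by have := D.h_pos (n + 1); positivity) (fun n => (D.h_pos n).le) N
  have h2 : ps (fun n => μ * h (n + 1)) N ≤ μ * ps h (N + 1) := by
    rw [ps_shift]
    have := D.h_pos 0
    nlinarith
  have h3 : ps h N ≤ ps h (N + 1) := ps_mono (fun n => (D.h_pos n).le) (by omega)
  have h4 := ps_pos D.h_pos N
  have h5 := ps_pos D.h_pos (N + 1)
  calc ps c N ≤ ps (fun n => μ * h (n + 1)) N * ps h N := h1
    _ ≤ (μ * ps h (N + 1)) * ps h (N + 1) := mul_le_mul h2 h3 h4.le (by positivity)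
    _ = _ := by ring

theorem Dat.BA_le (D : Dat c h b a μ) (N : ℕ) :
    ps b N * ps a N ≤ μ * ps h (2 * N + 1) ^ 2 := by
  have hμ := D.mu
  have h1 : ps b N * ps a N ≤ ps (fun n => μ * h (n + 1)) (2 * N) * ps h (2 * N) := by
    refine le_trans (mul_le_conv (fun n => (D.b_pos n).le) (fun n => (D.a_pos n).le) N) ?_
    rw [← sum_congr rfl fun n _ => D.id n]
    exact conv_le_mul (f := fun n => μ * h (n + 1)) (g := h)
      (fun n => by have := D.h_pos (n + 1); positivity) (fun n => (D.h_pos n).le) (2 * N)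
  have h2 : ps (fun n => μ * h (n + 1)) (2 * N) ≤ μ * ps h (2 * N + 1) := by
    rw [ps_shift]
    have := D.h_pos 0
    nlinarith
  have h3 : ps h (2 * N) ≤ ps h (2 * N + 1) := ps_mono (fun n => (D.h_pos n).le) (by omega)
  have h4 := ps_pos D.h_pos (2 * N)
  have h5 := ps_pos D.h_pos (2 * N + 1)
  calc ps b N * ps a N ≤ ps (fun n => μ * h (n + 1)) (2 * N) * ps h (2 * N) := h1
    _ ≤ (μ * ps h (2 * N + 1)) * ps h (2 * N + 1) := mul_le_mul h2 h3 h4.le (by positivity)
    _ = _ := by ring

theorem Dat.H_le (D : Dat c h b a μ) : ∃ K : ℝ, 0 < K ∧ ∀ N,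
    ps h N ^ 2 ≤ K * (ps b (2 * N) * ps a (2 * N)) := by
  have hμ := D.mu
  have hp0 := D.h_pos 0
  have hp1 := D.h_pos 1
  -- `ps h (N+1) - h 0 ≥ δ ps h (N+1)`
  refine ⟨(1 + h 0 / h 1) / μ, by positivity, fun N => ?_⟩
  have h1 : ps (fun n => μ * h (n + 1)) N * ps h N ≤ ps b (2 * N) * ps a (2 * N) := by
    refine le_trans (mul_le_conv (f := fun n => μ * h (n + 1)) (g := h)
      (fun n => by have := D.h_pos (n + 1); positivity) (fun n => (D.h_pos n).le) N) ?_
    rw [sum_congr rfl fun n _ => D.id n]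
    exact conv_le_mul (fun n => (D.b_pos n).le) (fun n => (D.a_pos n).le) (2 * N)
  have h2 : h 0 + h 1 ≤ ps h (N + 1) := by
    have h3 : ps h 1 ≤ ps h (N + 1) := ps_mono (fun n => (D.h_pos n).le) (by omega)
    have h4 : ps h 1 = h 0 + h 1 := by
      unfold ps
      rw [sum_range_succ, sum_range_one]
    linarith
  have h3 : ps h N ≤ ps h (N + 1) := ps_mono (fun n => (D.h_pos n).le) (by omega)
  have h4 := ps_pos D.h_pos N
  have h5 : ps h N ≤ (1 + h 0 / h 1) / μ * ps (fun n => μ * h (n + 1)) N := by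
    rw [ps_shift]
    have h6 : 0 ≤ ps h (N + 1) - h 0 := by linarith
    have h7 : h 0 ≤ h 0 / h 1 * (ps h (N + 1) - h 0) := by
      rw [div_mul_eq_mul_div, le_div_iff₀ hp1]
      nlinarith
    have h8 : (1 + h 0 / h 1) * (ps h (N + 1) - h 0) =
        (1 + h 0 / h 1) / μ * (μ * (ps h (N + 1) - h 0)) := by
      field_simp
    rw [← h8]
    nlinarith
  calc ps h N ^ 2 = ps h N * ps h N := sq _
    _ ≤ ((1 + h 0 / h 1) / μ * ps (fun n => μ * h (n + 1)) N) * ps h N :=
        mul_le_mul_of_nonneg_right h5 h4.le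
    _ = (1 + h 0 / h 1) / μ * (ps (fun n => μ * h (n + 1)) N * ps h N) := by ring
    _ ≤ _ := mul_le_mul_of_nonneg_left h1 (by positivity)

theorem Dat.B_tendsto (D : Dat c h b a μ) : Tendsto (ps b) atTop atTop := by
  have hμ := D.mu
  have h1 : ∀ N : ℕ, Real.log (N + 1) / 2 - Real.log μ / 2 ≤ ps b (N + 1) := by
    intro N
    have h2 : (N : ℝ) + 1 ≤ ps c N := by
      unfold ps
      calc (N : ℝ) + 1 = ∑ _n ∈ range (N + 1), (1 : ℝ) := by simp
        _ ≤ _ := sum_le_sum fun n _ => D.c_one n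
    have h3 := h2.trans (D.C_le N)
    have h4 : ps h (N + 1) ≤ Real.exp (ps b (N + 1)) := D.unf (N + 1)
    have h5 := ps_pos D.h_pos (N + 1)
    have h6 : ps h (N + 1) ^ 2 ≤ Real.exp (ps b (N + 1)) ^ 2 :=
      pow_le_pow_left₀ h5.le h4 2
    have h7 : (N : ℝ) + 1 ≤ μ * Real.exp (ps b (N + 1)) ^ 2 :=
      h3.trans (mul_le_mul_of_nonneg_left h6 (by linarith))
    have h8 := Real.log_le_log (by positivity) h7
    rw [Real.log_mul (by linarith) (by positivity), Real.log_pow, Real.log_exp] at h8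
    push_cast at h8
    linarith
  have h2 : Tendsto (fun N : ℕ => Real.log ((N : ℝ) + 1) / 2 - Real.log μ / 2) atTop atTop := by
    apply tendsto_atTop_add_const_right
    apply Tendsto.atTop_div_const (by norm_num)
    exact Real.tendsto_log_atTop.comp
      (tendsto_atTop_add_const_right _ _ tendsto_natCast_atTop_atTop)
  have h3 : Tendsto (fun N => ps b (N + 1)) atTop atTop := tendsto_atTop_mono h1 h2
  exact (tendsto_add_atTop_iff_nat 1).1 h3

theorem Dat.exps (E : S_exp) (D : Dat c h b a μ) {γ γ₁ γb : ℝ}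
    (hc : Tendsto (fun n : ℕ => Real.log (c n) / Real.log n) atTop (𝓝 (γ - 1)))
    (hh : Tendsto (fun n : ℕ => Real.log (h n) / Real.log n) atTop (𝓝 (γ₁ - 1)))
    (hb : Tendsto (fun n : ℕ => Real.log (b n) / Real.log n) atTop (𝓝 (γb - 1))) :
    γ ≤ 2 * γ₁ ∧ 2 * γ₁ ≤ γ + γb ∧ 0 ≤ γb ∧ γb ≤ 1 ∧
      (2 * γ₁ = γ + γb ↔
        Tendsto (fun N : ℕ => Real.log (ps a N / ps c N) / Real.log N) atTop (𝓝 0)) := by
  have hμ := D.mu
  have tlog : Tendsto (fun m : ℕ => Real.log (m : ℝ)) atTop atTop :=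
    Real.tendsto_log_atTop.comp tendsto_natCast_atTop_atTop
  have hcpos : ∀ n, 0 < c n := fun n => lt_of_lt_of_le one_pos (D.c_one n)
  -- `γ ≥ 1`
  have hγ : 1 ≤ γ := by
    have h1 : 0 ≤ γ - 1 := by
      refine ge_of_tendsto' hc fun n => ?_
      exact div_nonneg (Real.log_nonneg (D.c_one n)) (Real.log_natCast_nonneg n)
    linarith
  -- `γb ≤ 1`
  have hγb1 : γb ≤ 1 := by
    have h1 : γb - 1 ≤ 0 := by
      refine le_of_tendsto' hb fun n => ?_
      exact div_nonpos_of_nonpos_of_nonneg (Real.log_nonpos (D.b_pos n).le (D.b_le n))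
        (Real.log_natCast_nonneg n)
    linarith
  -- `γb ≥ 0`
  have hγb0 : 0 ≤ γb := by
    by_contra hneg
    push Not at hneg
    have h1 : ∀ᶠ n : ℕ in atTop, b n ≤ (n : ℝ) ^ (γb / 2 - 1) := by
      filter_upwards [hb.eventually_lt_const (show γb - 1 < γb / 2 - 1 by linarith),
        eventually_ge_atTop 2] with n hn hn2
      have hn' : (1 : ℝ) < n := by exact_mod_cast hn2
      have h2 := Real.log_pos hn'
      rw [div_lt_iff₀ h2] at hn
      have h3 := Real.exp_le_exp.2 hn.le
      rw [Real.exp_log (D.b_pos n)] at h3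
      rw [Real.rpow_def_of_pos (by linarith), mul_comm (Real.log _)]
      exact h3
    have h2 : Summable fun n : ℕ => (n : ℝ) ^ (γb / 2 - 1) :=
      Real.summable_nat_rpow.2 (by linarith)
    have h3 : Summable b := by
      refine summable_of_isBigO_nat h2 ?_
      refine Asymptotics.IsBigO.of_bound 1 ?_
      filter_upwards [h1] with n hn
      rw [one_mul, Real.norm_of_nonneg (D.b_pos n).le, Real.norm_of_nonneg (by positivity)]
      exact hn
    have h4 := D.B_tendsto
    have h5 : Tendsto (ps b) atTop (𝓝 (∑' n, b n)) :=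
      (tendsto_add_atTop_iff_nat 1).2 h3.hasSum.tendsto_sum_nat
    exact not_tendsto_atTop_of_tendsto_nhds h5 h4
  have Ec := E c γ hcpos hc
  have Eh := E h γ₁ D.h_pos hh
  have Eb := E b γb D.b_pos hb
  rw [max_eq_left (by linarith)] at Ec
  rw [max_eq_left hγb0] at Eb
  change Tendsto (fun n : ℕ => Real.log (ps c n) / Real.log n) atTop (𝓝 γ) at Ec
  change Tendsto (fun n : ℕ => Real.log (ps h n) / Real.log n) atTop (𝓝 (max γ₁ 0)) at Eh
  change Tendsto (fun n : ℕ => Real.log (ps b n) / Real.log n) atTop (𝓝 γb) at Eb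
  have hk : ∀ K : ℝ, Tendsto (fun n : ℕ => Real.log K / Real.log (n : ℝ)) atTop (𝓝 0) :=
    fun K => tlog.const_div_atTop _
  -- `γ ≤ 2 max γ₁ 0`
  have h1 : γ ≤ 2 * max γ₁ 0 := by
    have t := ((hk μ).add ((shift_one Eh).const_mul 2))
    rw [zero_add] at t
    refine le_of_tendsto_of_tendsto Ec t ?_
    filter_upwards [eventually_ge_atTop 2] with N hN
    have hN' : (1 : ℝ) < N := by exact_mod_cast hN
    have h5 := Real.log_pos hN'
    have h6 := Real.log_le_log (ps_pos hcpos N) (D.C_le N)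
    have h7 := ps_pos D.h_pos (N + 1)
    rw [Real.log_mul (by linarith) (by positivity), Real.log_pow] at h6
    push_cast at h6
    rw [← mul_div_assoc, ← add_div]
    gcongr
  have hγ1 : 0 < γ₁ := by
    by_contra hcon
    push Not at hcon
    rw [max_eq_right hcon] at h1
    linarith
  rw [max_eq_left hγ1.le] at h1 Eh
  obtain ⟨K, hK, hHle⟩ := D.H_le
  have a_le : ∀ N, ps a N ≤ ps c N := fun N => sum_le_sum fun n _ => D.a_le n
  -- lower bound for `a`
  have h2 : ∀ᶠ N : ℕ in atTop, 2 * (Real.log (ps h N) / Real.log N) ≤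
      Real.log K / Real.log N + Real.log (ps b (2 * N)) / Real.log N +
        Real.log (ps a (2 * N)) / Real.log N := by
    filter_upwards [eventually_ge_atTop 2] with N hN
    have hN' : (1 : ℝ) < N := by exact_mod_cast hN
    have h5 := Real.log_pos hN'
    have h7 := ps_pos D.h_pos N
    have h8 := ps_pos D.b_pos (2 * N)
    have h9 := ps_pos D.a_pos (2 * N)
    have h6 := Real.log_le_log (by positivity) (hHle N)
    rw [Real.log_mul (by positivity) (by positivity), Real.log_mul h8.ne' h9.ne',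
      Real.log_pow] at h6
    push_cast at h6
    rw [← mul_div_assoc, ← add_div, ← add_div]
    gcongr
    linarith
  have h3 : 2 * γ₁ ≤ γ + γb := by
    have t := ((hk K).add (shift_two Eb)).add (shift_two Ec)
    rw [zero_add, add_comm γb] at t
    refine le_of_tendsto_of_tendsto (Eh.const_mul 2) t ?_
    filter_upwards [h2, eventually_ge_atTop 2] with N hN1 hN
    have hN' : (1 : ℝ) < N := by exact_mod_cast hN
    have h5 := Real.log_pos hN'
    refine hN1.trans ?_
    have h6 := Real.log_le_log (ps_pos D.a_pos (2 * N)) (a_le (2 * N))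
    gcongr
  refine ⟨h1, h3, hγb0, hγb1, ?_⟩
  constructor
  · intro heq
    -- lower bound along even numbers and monotonicity
    have t := ((((shift_half Eh).const_mul 2).sub (hk K)).sub Eb).sub Ec
    have t0 : 2 * γ₁ - 0 - γb - γ = 0 := by rw [heq]; ring
    rw [t0] at t
    refine tendsto_of_tendsto_of_tendsto_of_le_of_le' t tendsto_const_nhds ?_ ?_
    · filter_upwards [eventually_ge_atTop 4] with N hN
      have hN' : (4 : ℝ) ≤ N := by exact_mod_cast hN
      have h5 : 0 < Real.log (N : ℝ) := Real.log_pos (by linarith)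
      have h7 := ps_pos D.h_pos (N / 2)
      have h8 := ps_pos D.b_pos (2 * (N / 2))
      have h9 := ps_pos D.a_pos (2 * (N / 2))
      have h6 := Real.log_le_log (by positivity) (hHle (N / 2))
      rw [Real.log_mul (by positivity) (by positivity), Real.log_mul h8.ne' h9.ne',
        Real.log_pow] at h6
      push_cast at h6
      have h10 : ps b (2 * (N / 2)) ≤ ps b N := ps_mono (fun n => (D.b_pos n).le) (by omega)
      have h11 : ps a (2 * (N / 2)) ≤ ps a N := ps_mono (fun n => (D.a_pos n).le) (by omega)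
      have h12 := Real.log_le_log h8 h10
      have h13 := Real.log_le_log h9 h11
      rw [Real.log_div (ps_pos D.a_pos N).ne' (ps_pos hcpos N).ne', ← mul_div_assoc,
        ← sub_div, ← sub_div, ← sub_div]
      gcongr
      linarith
    · filter_upwards [eventually_ge_atTop 2] with N hN
      refine div_nonpos_of_nonpos_of_nonneg ?_ (Real.log_natCast_nonneg N)
      apply Real.log_nonpos
      · exact div_nonneg (ps_pos D.a_pos N).le (ps_pos hcpos N).le
      · rw [div_le_one (ps_pos hcpos N)]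
        exact a_le N
  · intro ht
    -- upper bound
    refine le_antisymm h3 ?_
    have t : Tendsto (fun N : ℕ => Real.log (ps a N) / Real.log N) atTop (𝓝 γ) := by
      have t1 := ht.add Ec
      rw [zero_add] at t1
      refine t1.congr fun N => ?_
      rw [Real.log_div (ps_pos D.a_pos N).ne' (ps_pos hcpos N).ne']
      ring
    have t2 := (hk μ).add ((shift_two (F := fun N => ps h (N + 1)) (shift_one Eh)).const_mul 2)
    rw [zero_add] at t2
    refine le_of_tendsto_of_tendsto ((t.add Eb)) t2 ?_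
    filter_upwards [eventually_ge_atTop 2] with N hN
    have hN' : (1 : ℝ) < N := by exact_mod_cast hN
    have h5 := Real.log_pos hN'
    have h7 := ps_pos D.a_pos N
    have h8 := ps_pos D.b_pos N
    have h9 := ps_pos D.h_pos (2 * N + 1)
    have h6 := Real.log_le_log (by positivity) (D.BA_le N)
    rw [Real.log_mul h8.ne' h7.ne', Real.log_mul (by linarith) (by positivity),
      Real.log_pow] at h6
    push_cast at h6
    rw [← mul_div_assoc, ← add_div, ← add_div]
    refine div_le_div_of_nonneg_right ?_ h5.le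
    linarith

end Pool.Agent.Q234.HS
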