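import Pool.Agent.Q234.HS.Mu

/-! The data of a set of steps. -/

set_option autoImplicit false

namespace Pool.Agent.Q234.HS

open Finset Filter Topology

variable {V : Type} [AddCommGroup V]

theorem saw_nil : Saw ([] : List V) := by
  intro u hu h
  exact absurd (eq_nil_of_ifx h) hu

omit [AddCommGroup V] in
theorem N_zero (S : Set V) (P : List V → Prop) (h : P []) : N S P 0 = 1 := by
  unfold N
  rw [Set.ncard_eq_one]
  refine ⟨[], ?_⟩
  ext w
  constructor
  · rintro ⟨h1, _, _⟩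
    exact List.length_eq_zero_iff.1 h1
  · intro h1
    have h2 : w = [] := h1
    rw [h2]
    exact ⟨rfl, by simp, h⟩

/-- the two conclusions for numbers of words -/
theorem conv_eq {S : Set V} (hS : S.Finite) (l : V →+ ℤ)
    (h1 : ∀ a ∈ S, 0 < l a → l a = 1) (n : ℕ) :
    ∑ p ∈ antidiagonal n, N S (Half l) (p.1 + 1) * N S (Half l) p.2 =
      {a ∈ S | 0 < l a}.ncard *
        ∑ p ∈ antidiagonal n, N S (Br l) p.1 * N S (fun w => Saw w ∧ HasCut l w) p.2 := by
  rw [← identity hS, mul_sum]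
  refine sum_congr rfl fun p _ => ?_
  rw [N_Half_succ l h1, mul_assoc]

theorem conv_ge {S : Set V} (hS : S.Finite) (hneg : ∀ a ∈ S, -a ∈ S) (l : V →+ ℤ)
    (h1 : ∀ a ∈ S, 0 < l a → l a = 1) (n : ℕ) :
    {a ∈ S | 0 < l a}.ncard * N S Saw n ≤
      ∑ p ∈ antidiagonal n, N S (Half l) (p.1 + 1) * N S (Half l) p.2 := by
  rw [conv_eq hS l h1]
  exact Nat.mul_le_mul_left _ ((min_le hS hneg l n).trans (identity hS l n).le)

theorem mkDat {S : Set V} (hS : S.Finite) (hneg : ∀ a ∈ S, -a ∈ S) (l : V →+ ℤ)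
    (h1 : ∀ a ∈ S, 0 < l a → l a = 1) {e : V} (he : e ∈ S) (hle : 0 < l e) :
    ∃ μ : ℝ, 1 ≤ μ ∧ Tendsto (fun n : ℕ => (N S Saw n : ℝ) ^ (1 / (n : ℝ))) atTop (𝓝 μ) ∧
      (∀ n, μ ^ n ≤ (N S Saw n : ℝ)) ∧
      Dat (fun n => (N S Saw n : ℝ) / μ ^ n) (fun n => (N S (Half l) n : ℝ) / μ ^ n)
        (fun n => (N S (Br l) n : ℝ) / μ ^ n)
        (fun n => (N S (fun w => Saw w ∧ HasCut l w) n : ℝ) / μ ^ n)
        (μ / ({a ∈ S | 0 < l a}.ncard : ℝ)) := by
  have brpos := N_Br_pos hS he hle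
  have hbr : ∀ w, Br l w → Half l w := fun w hw => hw.1
  have hhs : ∀ w : List V, Half l w → Saw w := fun w hw => hw.1
  have hbc : ∀ w, Br l w → Saw w ∧ HasCut l w := fun w hw =>
    ⟨hw.1.1, [], w, rfl, fun x hx => by rw [List.suffix_nil] at hx; simp [hx], hw.1.2⟩
  have cpos : ∀ n, 1 ≤ N S Saw n := fun n =>
    (brpos n).trans_le ((N_mono hS hbr n).trans (N_mono hS hhs n))
  obtain ⟨μ, hμ1, hμ2, hμ3⟩ := exists_mu (N S Saw) cpos (N_submul hS)
  have hμ : 0 < μ := by linarith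
  have hr : 0 < {a ∈ S | 0 < l a}.ncard := by
    rw [Set.ncard_pos (hS.subset fun a ha => ha.1)]
    exact ⟨e, he, hle⟩
  have hr' : (0 : ℝ) < ({a ∈ S | 0 < l a}.ncard : ℝ) := by exact_mod_cast hr
  set r : ℕ := {a ∈ S | 0 < l a}.ncard with hrdef
  have hconv : ∀ (f g : ℕ → ℕ) (n : ℕ), ∑ p ∈ antidiagonal n,
      ((f p.1 : ℝ) / μ ^ p.1) * ((g p.2 : ℝ) / μ ^ p.2) =
      ((∑ p ∈ antidiagonal n, f p.1 * g p.2 : ℕ) : ℝ) / μ ^ n := by
    intro f g n
    push_cast
    rw [sum_div]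
    refine sum_congr rfl fun p hp => ?_
    rw [HasAntidiagonal.mem_antidiagonal] at hp
    rw [← hp, pow_add]
    field_simp
  have hshift : ∀ n : ℕ, ∑ p ∈ antidiagonal n,
      (μ / (r : ℝ) * ((N S (Half l) (p.1 + 1) : ℝ) / μ ^ (p.1 + 1))) *
        ((N S (Half l) p.2 : ℝ) / μ ^ p.2) =
      ((∑ p ∈ antidiagonal n, N S (Half l) (p.1 + 1) * N S (Half l) p.2 : ℕ) : ℝ) /
        ((r : ℝ) * μ ^ n) := by
    intro n
    push_cast
    rw [sum_div]
    refine sum_congr rfl fun p hp => ?_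
    rw [HasAntidiagonal.mem_antidiagonal] at hp
    rw [← hp, pow_add, pow_succ]
    field_simp
    ring
  refine ⟨μ, hμ1, hμ2, hμ3, ?_⟩
  refine
    { mu := by positivity
      c_one := fun n => ?_
      h_zero := ?_
      h_pos := fun n => ?_
      b_pos := fun n => ?_
      b_le := fun n => ?_
      a_pos := fun n => ?_
      a_le := fun n => ?_
      hw := fun n => ?_
      id := fun n => ?_
      unf := fun M => ?_ }
  · rw [le_div_iff₀ (by positivity), one_mul]
    exact hμ3 n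
  · rw [pow_zero, div_one]
    have := (brpos 0).trans_le (N_mono hS hbr 0)
    exact_mod_cast this
  · have : 0 < N S (Half l) n := (brpos n).trans_le (N_mono hS hbr n)
    have : (0 : ℝ) < N S (Half l) n := by exact_mod_cast this
    positivity
  · have : (0 : ℝ) < N S (Br l) n := by exact_mod_cast brpos n
    positivity
  · rw [div_le_one (by positivity)]
    refine super_le (fun n => (N_mono hS hbr n).trans (N_mono hS hhs n)) (N_supermul hS l) hμ2 ?_ n
    rw [N_zero]
    have := br_replicate (l := l) hle 0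
    exact this
  · have : 0 < N S (fun w => Saw w ∧ HasCut l w) n := (brpos n).trans_le (N_mono hS hbc n)
    have : (0 : ℝ) < N S (fun w => Saw w ∧ HasCut l w) n := by exact_mod_cast this
    positivity
  · refine div_le_div_of_nonneg_right ?_ (by positivity)
    exact_mod_cast N_mono hS (P := fun w => Saw w ∧ HasCut l w) (fun w hw => hw.1) n
  · rw [hshift n, div_le_div_iff₀ (by positivity) (by positivity)]
    have h2 : ((r * N S Saw n : ℕ) : ℝ) ≤
        ((∑ p ∈ antidiagonal n, N S (Half l) (p.1 + 1) * N S (Half l) p.2 : ℕ) : ℝ) := by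
      exact_mod_cast conv_ge hS hneg l h1 n
    rw [Nat.cast_mul] at h2
    calc (N S Saw n : ℝ) * ((r : ℝ) * μ ^ n) = ((r : ℝ) * N S Saw n) * μ ^ n := by ring
      _ ≤ _ := mul_le_mul_of_nonneg_right h2 (by positivity)
  · rw [hshift n, hconv, conv_eq hS l h1, ← hrdef, Nat.cast_mul]
    field_simp
  · have h2 := gf_Half_le hS hneg l M (z := 1 / μ) (by positivity)
    unfold gf at h2
    simp only [one_div, inv_pow, ← div_eq_mul_inv] at h2
    exact h2

end Pool.Agent.Q234.HS
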