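import Pool.Agent.Q234.HS.Exp

/-! The connective constant; the data for a set of steps; slices of a walk. -/

set_option autoImplicit false

namespace Pool.Agent.Q234.HS

open Finset Filter Topology

theorem exists_mu (c : ℕ → ℕ) (h1 : ∀ n, 1 ≤ c n) (hsub : ∀ m n, c (m + n) ≤ c m * c n) :
    ∃ μ : ℝ, 1 ≤ μ ∧ Tendsto (fun n : ℕ => (c n : ℝ) ^ (1 / (n : ℝ))) atTop (𝓝 μ) ∧
      ∀ n, μ ^ n ≤ (c n : ℝ) := by
  have hpos : ∀ n, (0 : ℝ) < c n := fun n => by
    have := h1 n
    exact_mod_cast (by omega : 0 < c n)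
  have hone : ∀ n, (1 : ℝ) ≤ c n := fun n => by exact_mod_cast h1 n
  have hs : Subadditive fun n => Real.log (c n) := by
    intro m n
    simp only
    rw [← Real.log_mul (hpos m).ne' (hpos n).ne']
    apply Real.log_le_log (hpos _)
    exact_mod_cast hsub m n
  have hb : BddBelow (Set.range fun n : ℕ => Real.log (c n) / n) := by
    refine ⟨0, ?_⟩
    rintro _ ⟨n, rfl⟩
    exact div_nonneg (Real.log_nonneg (hone n)) (Nat.cast_nonneg n)
  have hlim := hs.tendsto_lim hb
  refine ⟨Real.exp hs.lim, ?_, ?_, ?_⟩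
  · rw [← Real.exp_zero]
    apply Real.exp_le_exp.2
    refine ge_of_tendsto' hlim fun n => ?_
    exact div_nonneg (Real.log_nonneg (hone n)) (Nat.cast_nonneg n)
  · have h2 := (Real.continuous_exp.tendsto _).comp hlim
    refine h2.congr fun n => ?_
    simp only [Function.comp_apply]
    rw [Real.rpow_def_of_pos (hpos n)]
    congr 1
    ring
  · intro n
    rcases Nat.eq_zero_or_pos n with h | h
    · rw [h, pow_zero]
      exact hone 0
    · have h3 := hs.lim_le_div hb h.ne'
      rw [← Real.exp_nat_mul]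
      rw [← Real.exp_log (hpos n)]
      apply Real.exp_le_exp.2
      have h4 : (0 : ℝ) < n := by exact_mod_cast h
      rw [le_div_iff₀ h4] at h3
      linarith

theorem super_le {c b : ℕ → ℕ} {μ : ℝ} (hbc : ∀ n, b n ≤ c n)
    (hsup : ∀ m n, b m * b n ≤ b (m + n))
    (hμ : Tendsto (fun n : ℕ => (c n : ℝ) ^ (1 / (n : ℝ))) atTop (𝓝 μ))
    (hb0 : b 0 ≤ 1) (n : ℕ) : (b n : ℝ) ≤ μ ^ n := by
  rcases Nat.eq_zero_or_pos n with h | h
  · rw [h, pow_zero]
    exact_mod_cast hb0
  have h1 : ∀ k : ℕ, b n ^ (k + 1) ≤ b (n * (k + 1)) := by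
    intro k
    induction k with
    | zero => simp
    | succ k ih =>
      calc b n ^ (k + 1 + 1) = b n ^ (k + 1) * b n := pow_succ _ _
        _ ≤ b (n * (k + 1)) * b n := Nat.mul_le_mul_right _ ih
        _ ≤ b (n * (k + 1) + n) := hsup _ _
        _ = _ := by ring_nf
  have hn : (0 : ℝ) < n := by exact_mod_cast h
  have h2 : ∀ k : ℕ, (b n : ℝ) ≤ ((c (n * (k + 1)) : ℝ) ^ (1 / ((n * (k + 1) : ℕ) : ℝ))) ^ n := by
    intro k
    have h3 : (b n : ℝ) ^ (k + 1) ≤ c (n * (k + 1)) := by
      exact_mod_cast (h1 k).trans (hbc _)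
    have hc : (0 : ℝ) ≤ c (n * (k + 1)) := Nat.cast_nonneg _
    rw [← Real.rpow_natCast _ n, ← Real.rpow_mul hc]
    have h4 : 1 / ((n * (k + 1) : ℕ) : ℝ) * n = 1 / ((k + 1 : ℕ) : ℝ) := by
      push_cast
      field_simp
    rw [h4]
    have h5 := Real.rpow_le_rpow (by positivity) h3
      (show (0 : ℝ) ≤ 1 / ((k + 1 : ℕ) : ℝ) by positivity)
    rw [← Real.rpow_natCast (b n : ℝ) (k + 1), ← Real.rpow_mul (Nat.cast_nonneg _),
      mul_one_div_cancel (by positivity), Real.rpow_one] at h5
    exact h5
  have h3 : Tendsto (fun k : ℕ => n * (k + 1)) atTop atTop :=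
    Tendsto.const_mul_atTop' h (tendsto_add_atTop_nat 1)
  have h4 := (hμ.comp h3).pow n
  exact ge_of_tendsto' h4 h2

variable {V : Type} [AddCommGroup V]

theorem take_suffix_iff {n : ℕ} (ω : Fin (n + 1) → V) (h0 : ω 0 = 0) (p : V → Prop)
    (k : Fin (n + 1)) :
    (∀ x, x <:+ (word ω).take k → p x.sum) ↔ ∀ i, i ≤ k → p (ω k - ω i) := by
  have hk := k.isLt
  have key : ∀ i : Fin (n + 1), i ≤ k → (((word ω).take k).drop i).sum = ω k - ω i := by
    intro i hi
    have hi' : (i : ℕ) ≤ k := hi
    have h2 := List.sum_take_add_sum_drop ((word ω).take k) i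
    rw [List.take_take, min_eq_left hi', take_sum ω h0 i i.isLt, take_sum ω h0 k k.isLt] at h2
    change ω i + _ = ω k at h2
    rw [← h2]
    abel
  constructor
  · intro h i hi
    have h1 := h _ (List.drop_suffix i ((word ω).take k))
    rwa [key i hi] at h1
  · intro h x hx
    rw [List.suffix_iff_eq_drop] at hx
    have hl : ((word ω).take k).length = k := by
      rw [List.length_take, word_length]
      omega
    rw [hl] at hx
    have h1 := key ⟨k - x.length, by omega⟩ (by
      change (k : ℕ) - x.length ≤ k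
      omega)
    simp only at h1
    rw [hx, h1]
    exact h _ (by
      change (k : ℕ) - x.length ≤ k
      omega)

theorem drop_prefix_iff {n : ℕ} (ω : Fin (n + 1) → V) (h0 : ω 0 = 0) (p : V → Prop)
    (k : Fin (n + 1)) :
    (∀ x, x ≠ [] → x <+: (word ω).drop k → p x.sum) ↔ ∀ i, k < i → p (ω i - ω k) := by
  have hk := k.isLt
  have key : ∀ i : Fin (n + 1), k ≤ i → (((word ω).drop k).take (i - k)).sum = ω i - ω k := by
    intro i hi
    have hi' : (k : ℕ) ≤ i := hi
    have h1 : ((word ω).drop k).take (i - k) = ((word ω).take i).drop k := by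
      rw [List.drop_take]
    have h2 := List.sum_take_add_sum_drop ((word ω).take i) k
    rw [List.take_take, min_eq_left hi', take_sum ω h0 i i.isLt, take_sum ω h0 k k.isLt] at h2
    change ω k + _ = ω i at h2
    rw [h1, ← h2]
    abel
  constructor
  · intro h i hi
    have hi' : (k : ℕ) < i := hi
    have hin := i.isLt
    have h1 := h _ ?_ (List.take_prefix (i - k) ((word ω).drop k))
    · rwa [key i hi.le] at h1
    · intro h3
      have h4 := congrArg List.length h3
      rw [List.length_take, List.length_drop, word_length] at h4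
      simp at h4
      omega
  · intro h x hx0 hx
    rw [List.prefix_iff_eq_take] at hx
    have hpos : 0 < x.length := List.length_pos_iff.2 hx0
    have hl : x.length ≤ n - k := by
      have := congrArg List.length hx
      rw [List.length_take, List.length_drop, word_length] at this
      omega
    have h1 := key ⟨k + x.length, by omega⟩ (by
      change (k : ℕ) ≤ k + x.length
      omega)
    simp only [Nat.add_sub_cancel_left] at h1
    rw [hx, h1]
    exact h _ (by
      change (k : ℕ) < k + x.length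
      omega)

theorem hasCut_iff {n : ℕ} (ω : Fin (n + 1) → V) (h0 : ω 0 = 0) (l : V →+ ℤ) :
    HasCut l (word ω) ↔ ∃ k : Fin (n + 1), (∀ i, i ≤ k → l (ω i) ≤ l (ω k)) ∧
      ∀ i, k < i → l (ω k) < l (ω i) := by
  constructor
  · rintro ⟨p, q, hpq, hc1, hc2⟩
    have hlen : p.length + q.length = n := by
      rw [← List.length_append, hpq, word_length]
    refine ⟨⟨p.length, by omega⟩, ?_, ?_⟩
    · have h1 : (word ω).take p.length = p := by rw [← hpq, List.take_left']; rfl
      have h2 := (take_suffix_iff ω h0 (fun v => 0 ≤ l v) ⟨p.length, by omega⟩).1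
        (by rw [h1]; exact hc1)
      intro i hi
      have := h2 i hi
      rw [map_sub] at this
      omega
    · have h1 : (word ω).drop p.length = q := by rw [← hpq, List.drop_left']; rfl
      have h2 := (drop_prefix_iff ω h0 (fun v => 0 < l v) ⟨p.length, by omega⟩).1
        (by rw [h1]; exact hc2)
      intro i hi
      have := h2 i hi
      rw [map_sub] at this
      omega
  · rintro ⟨k, h1, h2⟩
    refine ⟨(word ω).take k, (word ω).drop k, List.take_append_drop _ _, ?_, ?_⟩
    · rw [take_suffix_iff ω h0 (fun v => 0 ≤ l v) k]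
      intro i hi
      rw [map_sub]
      have := h1 i hi
      omega
    · rw [drop_prefix_iff ω h0 (fun v => 0 < l v) k]
      intro i hi
      rw [map_sub]
      have := h2 i hi
      omega

theorem half_iff {n : ℕ} (ω : Fin (n + 1) → V) (h0 : ω 0 = 0) (l : V →+ ℤ) :
    (∀ u, u ≠ [] → u <+: word ω → 0 < l u.sum) ↔ ∀ i, i ≠ 0 → 0 < l (ω i) :=
  forall_prefix ω h0 fun v => 0 < l v

theorem br_iff {n : ℕ} (ω : Fin (n + 1) → V) (h0 : ω 0 = 0) (l : V →+ ℤ) :
    ((∀ u, u ≠ [] → u <+: word ω → 0 < l u.sum) ∧ ∀ u, u <:+ word ω → 0 ≤ l u.sum) ↔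
      ∀ i, i ≠ 0 → 0 < l (ω i) ∧ l (ω i) ≤ l (ω (Fin.last n)) := by
  rw [half_iff ω h0, forall_suffix ω h0 fun v => 0 ≤ l v]
  constructor
  · rintro ⟨h1, h2⟩ i hi
    refine ⟨h1 i hi, ?_⟩
    have := h2 i
    rw [map_sub] at this
    omega
  · intro h
    refine ⟨fun i hi => (h i hi).1, fun i => ?_⟩
    rw [map_sub]
    by_cases hi : i = 0
    · rw [hi, h0, map_zero]
      by_cases hl : Fin.last n = 0
      · rw [hl, h0, map_zero]
        omega
      · have := (h _ hl).1
        omega
    · have := (h i hi).2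
      omega

/-- the first step of a half-space walk -/
theorem N_Half_succ {S : Set V} (l : V →+ ℤ) (h1 : ∀ a ∈ S, 0 < l a → l a = 1) (n : ℕ) :
    N S (Half l) (n + 1) = {a ∈ S | 0 < l a}.ncard * N S (Wk l) n := by
  unfold N
  rw [← Set.ncard_prod]
  have hinj : Set.InjOn (fun p : V × List V => p.1 :: p.2) ({a ∈ S | 0 < l a} ×ˢ W S (Wk l) n) := by
    rintro ⟨a, w⟩ _ ⟨a', w'⟩ _ he
    simp only [List.cons.injEq] at he
    exact Prod.ext he.1 he.2
  rw [← hinj.ncard_image]
  congr 1
  ext w
  constructor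
  · rintro ⟨hl, hS, hs, hp⟩
    cases w with
    | nil => simp at hl
    | cons a w =>
      have ha : a ∈ S := hS a (by simp)
      have hla : 0 < l a := by
        have := hp [a] (by simp) ⟨w, rfl⟩
        simpa using this
      refine ⟨(a, w), ⟨⟨ha, hla⟩, ?_, ?_, ?_, ?_⟩, rfl⟩
      · simpa using hl
      · exact fun b hb => hS b (by simp [hb])
      · exact hs.sub (List.suffix_cons a w).isInfix
      · intro u hu
        have := hp (a :: u) (by simp) (by simpa using hu)
        rw [List.sum_cons, map_add, h1 a ha hla] at this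
        omega
  · rintro ⟨⟨a, w⟩, ⟨⟨ha, hla⟩, hl, hS, hs, hp⟩, rfl⟩
    refine ⟨by simpa using hl, ?_, ?_, ?_⟩
    · intro b hb
      rcases List.mem_cons.1 hb with h | h
      · rw [h]; exact ha
      · exact hS b h
    · intro u hu hw
      rcases ifx_cons_iff.1 hw with h | h
      · rcases List.prefix_cons_iff.1 h with h | ⟨t, rfl, ht⟩
        · exact absurd h hu
        · intro h0
          have h3 := hp t ht
          have h4 : l (a :: t).sum = 0 := by rw [h0, map_zero]
          rw [List.sum_cons, map_add] at h4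
          simp only at hla h3
          omega
      · exact hs u hu h
    · intro u hu hw
      rcases List.prefix_cons_iff.1 hw with h | ⟨t, rfl, ht⟩
      · exact absurd h hu
      · have h3 := hp t ht
        rw [List.sum_cons, map_add]
        simp only at hla h3 ⊢
        omega

end Pool.Agent.Q234.HS
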