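import Pool.Agent.Q234.HS.Avg

/-! Pairs of walks which meet only at the origin. -/

set_option autoImplicit false

namespace Pool.Agent.Q234.HS

open Finset

variable {V : Type} [AddCommGroup V]

theorem isW_word {S : Set V} {n : ℕ} {ω : Fin (n + 1) → V} (h : IsW S n ω) :
    word ω ∈ W S Saw n := by
  refine ⟨word_length ω, ?_, (saw_iff ω h.1).2 h.2.2⟩
  intro a ha
  rw [word, List.mem_ofFn] at ha
  obtain ⟨i, rfl⟩ := ha
  exact h.2.1 i

theorem exists_isW {S : Set V} {n : ℕ} {w : List V} (h : w ∈ W S Saw n) :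
    ∃ ω : Fin (n + 1) → V, IsW S n ω ∧ word ω = w := by
  obtain ⟨hl, hS, hs⟩ := h
  obtain ⟨ω, h0, rfl⟩ := exists_walk w n hl
  refine ⟨ω, ⟨h0, fun i => hS _ ?_, (saw_iff ω h0).1 hs⟩, rfl⟩
  rw [word, List.mem_ofFn]
  exact ⟨i, rfl⟩

theorem glue_disj {S : Set V} {k l : ℕ} {ω : Fin (k + 1) → V} {η : Fin (l + 1) → V}
    (h1 : IsW S k ω) (h2 : IsW S l η) (h : ∀ i j, i ≠ 0 → ω i ≠ η j) :
    Saw (nr (word ω) ++ word η) := by
  refine saw_glue (K := {v | ∃ i, i ≠ 0 ∧ ω i = v}) ⟨(saw_iff ω h1.1).2 h1.2.2, ?_⟩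
    ⟨(saw_iff η h2.1).2 h2.2.2, ?_⟩
  · exact (forall_prefix ω h1.1 fun v => v ∈ {v | ∃ i, i ≠ 0 ∧ ω i = v}).2 fun i hi => ⟨i, hi, rfl⟩
  · refine (forall_prefix η h2.1 fun v => v ∉ {v | ∃ i, i ≠ 0 ∧ ω i = v}).2 fun j _ => ?_
    rintro ⟨i, hi, he⟩
    exact h i j hi he

/-- two walks without a common point other than the origin are one longer walk -/
theorem ncard_disj {S : Set V} (hneg : ∀ a ∈ S, -a ∈ S) (k l : ℕ) :
    {p : (Fin (k + 1) → V) × (Fin (l + 1) → V) | (IsW S k p.1 ∧ IsW S l p.2) ∧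
      ∀ i j, i ≠ 0 → p.1 i ≠ p.2 j}.ncard = N S Saw (k + l) := by
  have hinj : Set.InjOn (fun p : (Fin (k + 1) → V) × (Fin (l + 1) → V) =>
      nr (word p.1) ++ word p.2) {p | (IsW S k p.1 ∧ IsW S l p.2) ∧
      ∀ i j, i ≠ 0 → p.1 i ≠ p.2 j} := by
    rintro ⟨ω, η⟩ ⟨⟨h1, h2⟩, _⟩ ⟨ω', η'⟩ ⟨⟨h1', h2'⟩, _⟩ he
    simp only at he
    obtain ⟨h3, h4⟩ := List.append_inj he (by
      rw [nr_length, nr_length, word_length, word_length])
    have h5 := word_injOn k h1.1 h1'.1 (nr_inj h3)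
    have h6 := word_injOn l h2.1 h2'.1 h4
    simp only at h5 h6
    rw [h5, h6]
  rw [N, ← hinj.ncard_image]
  congr 1
  ext s
  constructor
  · rintro ⟨⟨ω, η⟩, ⟨⟨h1, h2⟩, h3⟩, rfl⟩
    refine ⟨?_, ?_, glue_disj h1 h2 h3⟩
    · simp only [List.length_append, nr_length, word_length]
    · intro a ha
      rcases List.mem_append.1 ha with h | h
      · exact mem_nr hneg (isW_word h1).2.1 a h
      · exact (isW_word h2).2.1 a h
  · rintro ⟨hl, hS, hs⟩
    have hp : nr (s.take k) ∈ W S Saw k := by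
      refine ⟨?_, ?_, ?_⟩
      · rw [nr_length, List.length_take, hl]
        omega
      · exact mem_nr hneg fun a ha => hS a (List.mem_of_mem_take ha)
      · exact (hs.sub (List.take_prefix _ _).isInfix).nr
    have hq : s.drop k ∈ W S Saw l := by
      refine ⟨?_, ?_, ?_⟩
      · rw [List.length_drop, hl]
        omega
      · exact fun a ha => hS a (List.mem_of_mem_drop ha)
      · exact hs.sub (List.drop_suffix _ _).isInfix
    obtain ⟨ω, h1, h1'⟩ := exists_isW hp
    obtain ⟨η, h2, h2'⟩ := exists_isW hq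
    refine ⟨(ω, η), ⟨⟨h1, h2⟩, ?_⟩, ?_⟩
    · intro i j hi he
      simp only at he
      have hi0 : (i : ℕ) ≠ 0 := fun h => hi (Fin.ext h)
      have e1 := take_sum ω h1.1 i i.isLt
      have e2 := take_sum η h2.1 j j.isLt
      change _ = ω i at e1
      change _ = η j at e2
      have hpre : (word ω).take i <+: nr (s.take k) := by
        rw [← h1']
        exact List.take_prefix _ _
      have hsuf : nr ((word ω).take i) <:+ s.take k := by
        have := nr_prefix hpre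
        rwa [nr_nr] at this
      have hpre2 : (word η).take j <+: s.drop k := by
        rw [← h2']
        exact List.take_prefix _ _
      have hne : nr ((word ω).take i) ++ (word η).take j ≠ [] := by
        intro h
        have h5 := congrArg List.length h
        rw [List.length_append, nr_length, List.length_take, word_length] at h5
        have := i.isLt
        simp at h5
        omega
      refine hs _ hne ?_ ?_
      · obtain ⟨a, ha⟩ := hsuf
        obtain ⟨b, hb⟩ := hpre2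
        refine ⟨a, b, ?_⟩
        rw [← List.append_assoc, ha, List.append_assoc, hb, List.take_append_drop]
      · rw [List.sum_append, nr_sum, e1, e2, he]
        simp
    · simp only
      rw [h1', h2', nr_nr, List.take_append_drop]

/-- pairs separated by a set -/
theorem ncard_sep (S : Set V) (U : Set V) (k l : ℕ) :
    {p : (Fin (k + 1) → V) × (Fin (l + 1) → V) | (IsW S k p.1 ∧ IsW S l p.2) ∧
      (∀ i j, i ≠ 0 → p.1 i ≠ p.2 j) ∧ (∀ i, i ≠ 0 → p.1 i ∈ U) ∧ ∀ j, j ≠ 0 → p.2 j ∉ U}.ncard =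
      N S (InK U) k * N S (OutK U) l := by
  have h1 := ncard_walks S k (fun ω => ∀ i, i ≠ 0 → ω i ∈ U)
    (fun w => ∀ u, u ≠ [] → u <+: w → u.sum ∈ U)
    fun ω hω => (forall_prefix ω hω.1 fun v => v ∈ U).symm
  have h2 := ncard_walks S l (fun ω => ∀ i, i ≠ 0 → ω i ∉ U)
    (fun w => ∀ u, u ≠ [] → u <+: w → u.sum ∉ U)
    fun ω hω => (forall_prefix ω hω.1 fun v => v ∉ U).symm
  change _ = N S (InK U) k at h1
  change _ = N S (OutK U) l at h2
  rw [← h1, ← h2, ← Set.ncard_prod]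
  congr 1
  ext ⟨ω, η⟩
  constructor
  · rintro ⟨⟨h3, h4⟩, _, h6, h7⟩
    exact ⟨⟨h3, h6⟩, h4, h7⟩
  · rintro ⟨⟨h3, h6⟩, h4, h7⟩
    refine ⟨⟨h3, h4⟩, ?_, h6, h7⟩
    change IsW S k ω at h3
    change IsW S l η at h4
    intro i j hi he
    simp only at he h6 h7
    by_cases hj : j = 0
    · rw [hj, h4.1] at he
      rw [← h3.1] at he
      exact hi (h3.2.2 he)
    · exact h7 j hj (he ▸ h6 i hi)

end Pool.Agent.Q234.HS
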