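import Pool.Agent.Q234.HS.Tail3
import Pool.Agent.H979R2.P2.Main
import Pool.Agent.Q216.HS.HSC

/-! Separation of walks on `ℤ²`, with the almost power rate. -/

set_option autoImplicit false

namespace Pool.Agent.Q234.HS.Zd

open Finset Filter Topology
open Pool.Agent.H979R2

theorem sep2 : ∃ κ K : ℝ, 0 < κ ∧ 0 < K ∧
    ∀ (l : (Fin 2 → ℤ) →+ ℤ) (L : ℕ), 1 ≤ L →
      (∀ v, |(l v : ℝ)| ≤ L * Real.sqrt (∑ k, ((v k : ℤ) : ℝ) ^ 2)) →
    ∀ (U : Set (Fin 2 → ℤ)), (∀ v ∈ U, 0 < l v) →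
    (∀ n : ℕ, 16 ≤ n →
      ((∑ p ∈ antidiagonal n, N (St 2) (InK U) p.1 * N (St 2) (OutK U) p.2 : ℕ) : ℝ) ≤
        K * L * (n : ℝ) ^ (1 - κ / Real.log (Real.log n)) * N (St 2) Saw n) ∧
    (∀ M : ℕ, 16 ≤ M → (∑ k ∈ range (M + 1), (N (St 2) (InK U) k : ℝ) / N (St 2) Saw k) *
      (∑ k ∈ range (M + 1), (N (St 2) (OutK U) k : ℝ) / N (St 2) Saw k) ≤
      K * L * (M : ℝ) ^ (2 - κ / Real.log (Real.log M))) := by
  obtain ⟨c1, C1, hc1, hC1, hfar⟩ := P2.plain_typ P2.fin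
  obtain ⟨κ, K, hκ, hK, hmain⟩ := Pool.Agent.Q216.HS.fin2 c1 (max C1 1) hc1
    (lt_max_of_lt_left hC1)
  refine ⟨κ, K, hκ, hK, fun l L hL hl U hU => ?_⟩
  have hL' : (1 : ℝ) ≤ L := by exact_mod_cast hL
  have hL0 : (0 : ℝ) < L := by linarith
  have hcp : ∀ n, (0 : ℝ) < N (St 2) Saw n := fun n => by
    exact_mod_cast c_pos (by omega : 0 < 2) n
  set f : ℕ → ℝ := fun n =>
    ((∑ p ∈ antidiagonal n, N (St 2) (InK U) p.1 * N (St 2) (OutK U) p.2 : ℕ) : ℝ) /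
      (L * N (St 2) Saw n) with hf
  have hf1 : ∀ n, f n ≤ n + 1 := by
    intro n
    simp only [hf]
    have hc := hcp n
    rw [div_le_iff₀ (by positivity)]
    have h1 : ((∑ p ∈ antidiagonal n, N (St 2) (InK U) p.1 * N (St 2) (OutK U) p.2 : ℕ) : ℝ) ≤
        (n + 1) * N (St 2) Saw n := by
      exact_mod_cast conv_K' (St_finite 2) (St_neg 2) l U hU n
    refine h1.trans ?_
    have h2 : (N (St 2) Saw n : ℝ) ≤ L * N (St 2) Saw n := by nlinarith
    gcongr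
  have hf2 : ∀ n : ℕ, 16 ≤ n →
      f n ≤ max C1 1 * (n : ℝ) ^ (1 - c1 / Real.log (Real.log n)) + 2 +
        (n + 1) * (max C1 1 * Real.exp (-(n : ℝ) ^ (4 / 5 : ℝ))) := by
    intro n hn
    simp only [hf]
    have hc := hcp n
    have hn2 : (16 : ℝ) ≤ n := by exact_mod_cast hn
    have hfinW : {ω : Fin (n + 1) → Fin 2 → ℤ | IsW (St 2) n ω}.Finite :=
      Pool.Agent.H976R2.SB.finite_saw 2 n (by omega)
    have h3 : ({ω : Fin (n + 1) → Fin 2 → ℤ | IsW (St 2) n ω ∧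
        ∃ i, (n : ℝ) ^ (1 - c1 / Real.log (Real.log n)) ≤
          Real.sqrt (∑ k, ((ω i k : ℤ) : ℝ) ^ 2)}.ncard : ℝ) ≤
        max C1 1 * Real.exp (-(n : ℝ) ^ (4 / 5 : ℝ)) * N (St 2) Saw n := by
      have h4 := hfar (max C1 1) (le_max_left _ _) n hn
      unfold P2.prob at h4
      have h5 : (Nat.card {w : Fin (n + 1) → (Fin 2 → ℤ) // Pool.Agent.H725R2.SB.IsSAW 2 n w} : ℝ) =
          N (St 2) Saw n := by
        have := c_eq (d := 2) (n := n)
        exact_mod_cast this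
      rw [h5, div_le_iff₀ hc] at h4
      refine le_trans ?_ h4
      have h6 : {ω : Fin (n + 1) → Fin 2 → ℤ | IsW (St 2) n ω ∧
        ∃ i, (n : ℝ) ^ (1 - c1 / Real.log (Real.log n)) ≤
          Real.sqrt (∑ k, ((ω i k : ℤ) : ℝ) ^ 2)} ⊆ {w | Pool.Agent.H725R2.SB.IsSAW 2 n w ∧
          (n : ℝ) ^ (1 - c1 / Real.log (Real.log n)) ≤ P2.diam w} := by
        rintro ω ⟨h7, i, h8⟩
        refine ⟨h7, h8.trans ?_⟩
        have h9 := P2.le_diam ω i 0
        refine le_trans (le_of_eq ?_) h9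
        have h10 : ω 0 = 0 := h7.1
        simp [P2.dist2, h10]
      have h7 := Set.ncard_le_ncard h6 (hfinW.subset fun ω hω => hω.1)
      exact_mod_cast h7
    have h6 := conv_far l L hL (fun v => Real.sqrt (∑ k, ((v k : ℤ) : ℝ) ^ 2)) hl U hU n
      ((n : ℝ) ^ (1 - c1 / Real.log (Real.log n))) _ (by positivity) hfinW h3
    rw [div_le_iff₀ (by positivity)]
    refine h6.trans ?_
    have h7 : (0 : ℝ) ≤ (n + 1) * (max C1 1 * Real.exp (-(n : ℝ) ^ (4 / 5 : ℝ))) := by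
      have : (0 : ℝ) < max C1 1 := lt_max_of_lt_left hC1
      positivity
    have h8 : (0 : ℝ) < (n : ℝ) ^ (1 - c1 / Real.log (Real.log n)) := by positivity
    have h9 : (n : ℝ) ^ (1 - c1 / Real.log (Real.log n)) ≤
        max C1 1 * (n : ℝ) ^ (1 - c1 / Real.log (Real.log n)) := by
      have : (1 : ℝ) ≤ max C1 1 := le_max_right _ _
      nlinarith
    calc (L * ((n : ℝ) ^ (1 - c1 / Real.log (Real.log n)) + 1) +
          (n + 1) * (max C1 1 * Real.exp (-(n : ℝ) ^ (4 / 5 : ℝ)))) * N (St 2) Saw n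
        ≤ (L * (max C1 1 * (n : ℝ) ^ (1 - c1 / Real.log (Real.log n)) + 2 +
          (n + 1) * (max C1 1 * Real.exp (-(n : ℝ) ^ (4 / 5 : ℝ))))) * N (St 2) Saw n := by
          refine mul_le_mul_of_nonneg_right ?_ hc.le
          nlinarith
      _ = _ := by ring
  obtain ⟨hm1, hm2⟩ := hmain f hf1 hf2
  have hconv : ∀ n, ∑ p ∈ antidiagonal n, (N (St 2) (InK U) p.1 : ℝ) * N (St 2) (OutK U) p.2 ≤
      (N (St 2) Saw n : ℝ) * (L * f n) := by
    intro n
    simp only [hf]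
    have hc := hcp n
    push_cast
    apply le_of_eq
    field_simp
  constructor
  · intro n hn
    have h1 := hm1 n hn
    simp only [hf] at h1
    have hc := hcp n
    rw [div_le_iff₀ (by positivity)] at h1
    refine h1.trans (le_of_eq ?_)
    ring
  · intro M hM
    have h1 := avg (x := fun k => (N (St 2) (InK U) k : ℝ)) (y := fun k => (N (St 2) (OutK U) k : ℝ))
      (c := fun k => (N (St 2) Saw k : ℝ)) (f := fun n => L * f n) (fun k => Nat.cast_nonneg _)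
      (fun k => Nat.cast_nonneg _) hcp
      (fun k j => by exact_mod_cast N_submul (St_finite 2) k j) hconv M
    refine h1.trans ?_
    rw [← mul_sum]
    calc (L : ℝ) * ∑ n ∈ range (2 * M + 1), f n ≤
          L * (K * (M : ℝ) ^ (2 - κ / Real.log (Real.log M))) :=
          mul_le_mul_of_nonneg_left (hm2 M hM) hL0.le
      _ = _ := by ring

end Pool.Agent.Q234.HS.Zd
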