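import Pool.Agent.Q234.HS.Zd
import Pool.Agent.H976R2.SB.Expect
import Pool.Agent.Q216.HS.HSB

/-! Separation of walks on `ℤ^d`. -/

set_option autoImplicit false

namespace Pool.Agent.Q234.HS.Zd

open Finset Filter Topology
open Pool.Agent.H976R2

theorem c_pos {d : ℕ} (hd : 0 < d) (n : ℕ) : 0 < N (St d) Saw n :=
  (N_Br_pos (St_finite d) (e1_mem hd) (e1_x1 hd) n).trans_le
    (N_mono (St_finite d) (fun _ hw => hw.1.1) n)

/-- the abstract step: a bound for the far walks gives a bound for the convolution -/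
theorem conv_far {d : ℕ} (l : (Fin d → ℤ) →+ ℤ) (L : ℕ) (hL : 1 ≤ L) (nrm : (Fin d → ℤ) → ℝ)
    (hl : ∀ v, |(l v : ℝ)| ≤ L * nrm v) (U : Set (Fin d → ℤ)) (hU : ∀ v ∈ U, 0 < l v)
    (n : ℕ) (R δ : ℝ) (hR : 0 ≤ R) (hfin : {ω : Fin (n + 1) → Fin d → ℤ | IsW (St d) n ω}.Finite)
    (h : ({ω : Fin (n + 1) → Fin d → ℤ | IsW (St d) n ω ∧ ∃ i, R ≤ nrm (ω i)}.ncard : ℝ) ≤
      δ * N (St d) Saw n) :
    ((∑ p ∈ antidiagonal n, N (St d) (InK U) p.1 * N (St d) (OutK U) p.2 : ℕ) : ℝ) ≤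
      (L * (R + 1) + (n + 1) * δ) * N (St d) Saw n := by
  have h1 := conv_K (St_finite d) (St_neg d) l U hU n (L * ⌈R⌉₊)
  have h2 : N (St d) (Far l (L * ⌈R⌉₊)) n ≤
      {ω : Fin (n + 1) → Fin d → ℤ | IsW (St d) n ω ∧ ∃ i, R ≤ nrm (ω i)}.ncard := by
    refine far_le l _ ?_ (hfin.subset fun ω hω => hω.1)
    rintro ω _ ⟨i, hi⟩
    refine ⟨i, ?_⟩
    have h3 := hl (ω i)
    have h4 : (L : ℝ) * ⌈R⌉₊ ≤ |(l (ω i) : ℝ)| := by
      have h5 : ((L * ⌈R⌉₊ : ℕ) : ℤ) ≤ |l (ω i)| := by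
        rw [le_abs]
        right
        omega
      have h6 : ((L * ⌈R⌉₊ : ℕ) : ℝ) ≤ |(l (ω i) : ℝ)| := by exact_mod_cast h5
      push_cast at h6
      exact h6
    have h7 : (0 : ℝ) < L := by exact_mod_cast (by omega : 0 < L)
    have h8 : (⌈R⌉₊ : ℝ) ≤ nrm (ω i) := by
      have := h4.trans h3
      exact le_of_mul_le_mul_left this h7
    exact (Nat.le_ceil R).trans h8
  have h3 : ((∑ p ∈ antidiagonal n, N (St d) (InK U) p.1 * N (St d) (OutK U) p.2 : ℕ) : ℝ) ≤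
      ((L * ⌈R⌉₊ * N (St d) Saw n + (n + 1) * N (St d) (Far l (L * ⌈R⌉₊)) n : ℕ) : ℝ) := by
    exact_mod_cast h1
  refine h3.trans ?_
  push_cast
  have h4 : (⌈R⌉₊ : ℝ) ≤ R + 1 := (Nat.ceil_lt_add_one hR).le
  have h5 : (N (St d) (Far l (L * ⌈R⌉₊)) n : ℝ) ≤ δ * N (St d) Saw n := by
    refine le_trans ?_ h
    exact_mod_cast h2
  have h6 : (0 : ℝ) ≤ N (St d) Saw n := Nat.cast_nonneg _
  have h7 : (L : ℝ) * ⌈R⌉₊ * N (St d) Saw n ≤ L * (R + 1) * N (St d) Saw n := by gcongr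
  have h8 : ((n : ℝ) + 1) * N (St d) (Far l (L * ⌈R⌉₊)) n ≤ (n + 1) * (δ * N (St d) Saw n) := by
    gcongr
  linarith

theorem sep3 (d : ℕ) (hd : 2 ≤ d) : ∃ κ K : ℝ, 0 < κ ∧ 0 < K ∧
    ∀ (l : (Fin d → ℤ) →+ ℤ) (L : ℕ), 1 ≤ L → (∀ v, |(l v : ℝ)| ≤ L * Real.sqrt (SB.nsq v)) →
    ∀ (U : Set (Fin d → ℤ)), (∀ v ∈ U, 0 < l v) →
    (∀ n : ℕ, 2 ≤ n →
      ((∑ p ∈ antidiagonal n, N (St d) (InK U) p.1 * N (St d) (OutK U) p.2 : ℕ) : ℝ) ≤
        K * L * (n / Real.log n ^ κ) * N (St d) Saw n) ∧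
    (∀ M : ℕ, 2 ≤ M → (∑ k ∈ range (M + 1), (N (St d) (InK U) k : ℝ) / N (St d) Saw k) *
      (∑ k ∈ range (M + 1), (N (St d) (OutK U) k : ℝ) / N (St d) Saw k) ≤
      K * L * ((M : ℝ) ^ 2 / Real.log M ^ κ)) := by
  obtain ⟨c1, hc1, hfar⟩ := SB.walks_far_euclid d hd
  obtain ⟨N0, hN0⟩ := hfar (1 / 2) (by norm_num)
  obtain ⟨κ, K, hκ, hK, hmain⟩ := Pool.Agent.Q216.HS.fin3 c1 (max N0 2) hc1
  refine ⟨κ, K, hκ, hK, fun l L hL hl U hU => ?_⟩
  have hL' : (1 : ℝ) ≤ L := by exact_mod_cast hL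
  have hL0 : (0 : ℝ) < L := by linarith
  have hcp : ∀ n, (0 : ℝ) < N (St d) Saw n := fun n => by
    exact_mod_cast c_pos (by omega : 0 < d) n
  set f : ℕ → ℝ := fun n =>
    ((∑ p ∈ antidiagonal n, N (St d) (InK U) p.1 * N (St d) (OutK U) p.2 : ℕ) : ℝ) /
      (L * N (St d) Saw n) with hf
  have hf1 : ∀ n, f n ≤ n + 1 := by
    intro n
    simp only [hf]
    have hc := hcp n
    rw [div_le_iff₀ (by positivity)]
    have h1 : ((∑ p ∈ antidiagonal n, N (St d) (InK U) p.1 * N (St d) (OutK U) p.2 : ℕ) : ℝ) ≤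
        (n + 1) * N (St d) Saw n := by
      exact_mod_cast conv_K' (St_finite d) (St_neg d) l U hU n
    refine h1.trans ?_
    have h2 : (N (St d) Saw n : ℝ) ≤ L * N (St d) Saw n := by nlinarith
    gcongr
  have hf2 : ∀ n : ℕ, max N0 2 ≤ n →
      f n ≤ n / Real.log n ^ c1 + 2 + (n + 1) * Real.exp (-(n : ℝ) ^ (1 / 2 : ℝ)) := by
    intro n hn
    simp only [hf]
    have hc := hcp n
    have hn2 : (2 : ℝ) ≤ n := by exact_mod_cast (le_max_right _ _).trans hn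
    have hlog : 0 < Real.log n := Real.log_pos (by linarith)
    have hfinW : {ω : Fin (n + 1) → Fin d → ℤ | IsW (St d) n ω}.Finite :=
      SB.finite_saw d n (by omega)
    have h3 : ({ω : Fin (n + 1) → Fin d → ℤ | IsW (St d) n ω ∧
        ∃ i, (n : ℝ) / Real.log n ^ c1 ≤ Real.sqrt (SB.nsq (ω i))}.ncard : ℝ) ≤
        Real.exp (-(n : ℝ) ^ (1 / 2 : ℝ)) * N (St d) Saw n := by
      have h4 := hN0 n ((le_max_left _ _).trans hn)
      rw [SB.num_true] at h4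
      have h5 : ({ω : Fin (n + 1) → Fin d → ℤ | SB.IsSAW d n ω}.ncard : ℝ) =
          N (St d) Saw n := by
        have := c_eq (d := d) (n := n)
        exact_mod_cast this
      rw [h5, show (1 - 1 / 2 : ℝ) = 1 / 2 by norm_num] at h4
      exact h4
    have h6 := conv_far l L hL (fun v => Real.sqrt (SB.nsq v)) hl U hU n
      ((n : ℝ) / Real.log n ^ c1) _ (by positivity) hfinW h3
    rw [div_le_iff₀ (by positivity)]
    refine h6.trans ?_
    have h7 : (0 : ℝ) ≤ (n + 1) * Real.exp (-(n : ℝ) ^ (1 / 2 : ℝ)) := by positivity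
    calc (L * ((n : ℝ) / Real.log n ^ c1 + 1) + (n + 1) * Real.exp (-(n : ℝ) ^ (1 / 2 : ℝ))) *
          N (St d) Saw n
        ≤ (L * ((n : ℝ) / Real.log n ^ c1 + 2 + (n + 1) * Real.exp (-(n : ℝ) ^ (1 / 2 : ℝ)))) *
          N (St d) Saw n := by
          refine mul_le_mul_of_nonneg_right ?_ hc.le
          nlinarith
      _ = _ := by ring
  obtain ⟨hm1, hm2⟩ := hmain f hf1 hf2
  have hconv : ∀ n, ∑ p ∈ antidiagonal n, (N (St d) (InK U) p.1 : ℝ) * N (St d) (OutK U) p.2 ≤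
      (N (St d) Saw n : ℝ) * (L * f n) := by
    intro n
    simp only [hf]
    have hc := hcp n
    push_cast
    apply le_of_eq
    field_simp
  constructor
  · intro n hn
    have h1 := hm1 n hn
    simp only [hf] at h1
    have hc := hcp n
    rw [div_le_iff₀ (by positivity)] at h1
    refine h1.trans (le_of_eq ?_)
    ring
  · intro M hM
    have h1 := avg (x := fun k => (N (St d) (InK U) k : ℝ)) (y := fun k => (N (St d) (OutK U) k : ℝ))
      (c := fun k => (N (St d) Saw k : ℝ)) (f := fun n => L * f n) (fun k => Nat.cast_nonneg _)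
      (fun k => Nat.cast_nonneg _) hcp
      (fun k j => by exact_mod_cast N_submul (St_finite d) k j) hconv M
    refine h1.trans ?_
    rw [← mul_sum]
    calc (L : ℝ) * ∑ n ∈ range (2 * M + 1), f n ≤ L * (K * ((M : ℝ) ^ 2 / Real.log M ^ κ)) :=
          mul_le_mul_of_nonneg_left (hm2 M hM) hL0.le
      _ = _ := by ring

end Pool.Agent.Q234.HS.Zd
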