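import Pool.Agent.Q234.HS.Tail3
import Pool.Agent.Q234.HS.BrTail
import Pool.Agent.W325.S3.Fin
import Pool.Agent.H46R2.K3.EQ

/-! Bridges on `ℤ³`. -/

set_option autoImplicit false

namespace Pool.Agent.Q234.HS.Zd

open Finset Filter Topology
open Pool.Agent.H976R2

theorem far_end {d n : ℕ} (l : (Fin d → ℤ) →+ ℤ) (R : ℕ) (nrm : (Fin d → ℤ) → ℝ)
    (hl : ∀ v, |(l v : ℝ)| ≤ nrm v) (ρ : ℝ) (hρ : ρ ≤ R)
    (hfin : {ω : Fin (n + 1) → Fin d → ℤ | IsW (St d) n ω}.Finite) :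
    N (St d) (fun w => Br l w ∧ (R : ℤ) < l w.sum) n ≤
      {ω : Fin (n + 1) → Fin d → ℤ | IsW (St d) n ω ∧ ∃ i, ρ ≤ nrm (ω i)}.ncard := by
  have h1 : {ω : Fin (n + 1) → Fin d → ℤ | IsW (St d) n ω ∧ (R : ℤ) < l (ω (Fin.last n))}.ncard =
      N (St d) (fun w => Saw w ∧ (R : ℤ) < l w.sum) n := by
    refine ncard_walks (St d) n _ (fun w => (R : ℤ) < l w.sum) fun ω hω => ?_
    have h1 := take_sum ω hω.1 n (by omega)
    have h2 : (word ω).take n = word ω := by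
      rw [List.take_eq_self_iff, word_length]
    rw [h2] at h1
    rw [h1]
    rfl
  refine (N_mono (St_finite d) (Q := fun w => Saw w ∧ (R : ℤ) < l w.sum)
    (fun w hw => ⟨hw.1.1.1, hw.2⟩) n).trans ?_
  rw [← h1]
  refine Set.ncard_le_ncard ?_ (hfin.subset fun ω hω => hω.1)
  rintro ω ⟨hω, h⟩
  refine ⟨hω, Fin.last n, hρ.trans ?_⟩
  refine le_trans ?_ (hl _)
  have h2 : (R : ℝ) < (l (ω (Fin.last n)) : ℝ) := by exact_mod_cast h
  exact h2.le.trans (le_abs_self _)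

theorem mono_log {c : ℝ} (hc : 0 < c) {n m : ℕ} (hn2 : 2 ≤ n) (hn : c ≤ Real.log n) (hnm : n ≤ m) :
    (n : ℝ) / Real.log n ^ c ≤ (m : ℝ) / Real.log m ^ c := by
  have hn0 : (2 : ℝ) ≤ n := by exact_mod_cast hn2
  have hnm' : (n : ℝ) ≤ m := by exact_mod_cast hnm
  have hln : 0 < Real.log n := Real.log_pos (by linarith)
  have hlm : 0 < Real.log m := Real.log_pos (by linarith)
  rw [div_le_div_iff₀ (by positivity) (by positivity)]
  have h1 : Real.log m / Real.log n ≤ Real.exp ((Real.log m - Real.log n) / Real.log n) := by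
    have h2 := Real.add_one_le_exp ((Real.log m - Real.log n) / Real.log n)
    refine le_trans (le_of_eq ?_) h2
    field_simp
    ring
  have h2 : (Real.log m / Real.log n) ^ c ≤ (m : ℝ) / n := by
    calc (Real.log m / Real.log n) ^ c
        ≤ (Real.exp ((Real.log m - Real.log n) / Real.log n)) ^ c :=
          Real.rpow_le_rpow (by positivity) h1 hc.le
      _ = Real.exp ((Real.log m - Real.log n) * (c / Real.log n)) := by
          rw [← Real.exp_mul]
          congr 1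
          ring
      _ ≤ Real.exp ((Real.log m - Real.log n) * 1) := by
          apply Real.exp_le_exp.2
          apply mul_le_mul_of_nonneg_left
          · rw [div_le_one hln]
            exact hn
          · have := Real.log_le_log (by linarith) hnm'
            linarith
      _ = (m : ℝ) / n := by
          rw [mul_one, Real.exp_sub, Real.exp_log (by linarith), Real.exp_log (by linarith)]
  rw [Real.div_rpow hlm.le hln.le, div_le_div_iff₀ (by positivity) (by linarith)] at h2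
  linarith

theorem sum_exp (K : ℝ) : ∃ B : ℝ, ∀ M : ℕ, ∑ n ∈ range (M + 1),
    Real.exp (-(n : ℝ) ^ (5 / 6 : ℝ)) * Real.exp (K * (n : ℝ) ^ (1 / 2 : ℝ)) ≤ B := by
  have h1 : Summable fun n : ℕ =>
      Real.exp (-(n : ℝ) ^ (5 / 6 : ℝ)) * Real.exp (K * (n : ℝ) ^ (1 / 2 : ℝ)) := by
    have h2 : Summable fun n : ℕ => (n : ℝ) ^ (-2 : ℝ) := Real.summable_nat_rpow.2 (by norm_num)
    refine summable_of_isBigO_nat h2 ?_
    refine Asymptotics.IsBigO.of_bound 1 ?_
    -- `2 log n + K n^{1/2} ≤ n^{5/6}` eventually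
    have t1 : Tendsto (fun n : ℕ => (n : ℝ) ^ (1 / 3 : ℝ)) atTop atTop :=
      (tendsto_rpow_atTop (by norm_num)).comp tendsto_natCast_atTop_atTop
    filter_upwards [t1.eventually_ge_atTop (|K| + 4), eventually_ge_atTop 1] with n h3 h5
    have hn : (1 : ℝ) ≤ n := by exact_mod_cast h5
    have h4 := Real.log_le_rpow_div (x := (n : ℝ)) (by linarith) (show (0 : ℝ) < 1 / 2 by norm_num)
    rw [← Real.exp_add, Real.norm_of_nonneg (Real.exp_pos _).le,
      Real.norm_of_nonneg (by positivity), one_mul]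
    have h10 : (n : ℝ) ^ (-2 : ℝ) = Real.exp (-2 * Real.log n) := by
      rw [Real.rpow_def_of_pos (by linarith), mul_comm]
    rw [h10]
    apply Real.exp_le_exp.2
    have h6 : (n : ℝ) ^ (5 / 6 : ℝ) = (n : ℝ) ^ (1 / 3 : ℝ) * (n : ℝ) ^ (1 / 2 : ℝ) := by
      rw [← Real.rpow_add (by linarith)]
      norm_num
    have h7 : (0 : ℝ) ≤ (n : ℝ) ^ (1 / 2 : ℝ) := by positivity
    have h8 : (|K| + 4) * (n : ℝ) ^ (1 / 2 : ℝ) ≤ (n : ℝ) ^ (5 / 6 : ℝ) := by
      rw [h6]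
      exact mul_le_mul_of_nonneg_right h3 h7
    have h9 : K * (n : ℝ) ^ (1 / 2 : ℝ) ≤ |K| * (n : ℝ) ^ (1 / 2 : ℝ) :=
      mul_le_mul_of_nonneg_right (le_abs_self K) h7
    linarith
  refine ⟨_, fun M => h1.sum_le_tsum _ fun n _ => by positivity⟩

/-- bridges on `ℤ³` -/
theorem br3 (μ : ℝ) (hμ1 : 1 ≤ μ)
    (hμ2 : Tendsto (fun n : ℕ => (N (St 3) Saw n : ℝ) ^ (1 / (n : ℝ))) atTop (𝓝 μ))
    (hb : ∀ n, (N (St 3) (Br (x1 3 (by norm_num))) n : ℝ) ≤ μ ^ n) :
    ∃ κ K : ℝ, 0 < κ ∧ 0 < K ∧ ∀ M : ℕ, 2 ≤ M →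
      ∑ n ∈ range (M + 1), (N (St 3) (Br (x1 3 (by norm_num))) n : ℝ) / μ ^ n ≤
        K * (M / Real.log M ^ κ) := by
  have hμ : 0 < μ := by linarith
  obtain ⟨c1, hc1, hfar⟩ := SB.walks_far_euclid 3 (by norm_num)
  obtain ⟨N0, hN0⟩ := hfar (1 / 6) (by norm_num)
  obtain ⟨K0, hK0⟩ := Pool.Agent.W325.S3.c_third (1 / 6) (by norm_num)
  obtain ⟨B, hB⟩ := sum_exp K0
  have hB0 : 0 ≤ B := le_trans (sum_nonneg fun n _ => by positivity) (hB 0)
  -- the two connective constants agree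
  have hcc : ∀ n, N (St 3) Saw n = Pool.Agent.H46R2.K3.c n := by
    intro n
    rw [← Pool.Agent.H46R2.K3.P.card_eq n, ← c_eq]
    rw [← Nat.card_coe_set_eq]
    refine Nat.card_congr (Equiv.subtypeEquivRight fun f => ?_)
    rw [Set.mem_ofPred_eq, isW_iff]
    tauto
  have hμe : μ = Pool.Agent.H46R2.K3.mu := by
    refine tendsto_nhds_unique hμ2 ?_
    simp only [hcc]
    exact Pool.Agent.H46R2.K3.P.tendsto_c
  have hgr : ∀ n : ℕ, (N (St 3) Saw n : ℝ) ≤ μ ^ n * Real.exp (K0 * (n : ℝ) ^ (1 / 2 : ℝ)) := by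
    intro n
    have := hK0 n
    rw [hcc, hμe]
    rwa [show (1 / 3 + 1 / 6 : ℝ) = 1 / 2 by norm_num] at this
  set n1 : ℕ := max (max N0 2) ⌈Real.exp c1⌉₊ with hn1
  set ρ : ℕ → ℝ := fun n => (n : ℝ) / Real.log n ^ c1 with hρ
  set δ : ℕ → ℝ := fun n => Real.exp (-(n : ℝ) ^ (5 / 6 : ℝ)) * Real.exp (K0 * (n : ℝ) ^ (1 / 2 : ℝ))
    with hδ
  have hlogc : ∀ n : ℕ, n1 ≤ n → c1 ≤ Real.log n := by
    intro n hn
    have h1 : Real.exp c1 ≤ n := by
      refine (Nat.le_ceil _).trans ?_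
      exact_mod_cast (le_max_right _ _).trans hn
    have h2 := Real.log_le_log (Real.exp_pos _) h1
    rwa [Real.log_exp] at h2
  have hn2 : ∀ n : ℕ, n1 ≤ n → 2 ≤ n := fun n hn =>
    ((le_max_right _ _).trans (le_max_left _ _)).trans hn
  set D : ℝ := 3 + n1 + B with hD
  have hD1 : 1 ≤ D := by
    have : (0 : ℝ) ≤ n1 := Nat.cast_nonneg _
    linarith
  have hmain : ∀ M : ℕ, 2 ≤ M →
      ∑ n ∈ range (M + 1), (N (St 3) (Br (x1 3 (by norm_num))) n : ℝ) / μ ^ n ≤ ρ M + 2 + n1 + B := by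
    intro M hM
    have hM2 : (2 : ℝ) ≤ M := by exact_mod_cast hM
    have hlM : 0 < Real.log M := Real.log_pos (by linarith)
    refine br_total (St_finite 3) _ hμ hb ρ n1 M B (by positivity) ?_ δ
      (fun n => by positivity) (hB M) ?_
    · intro n h1 h2
      exact mono_log hc1 (hn2 n h1) (hlogc n h1) h2
    · intro n h1 h2 R hR
      have hfinW : {ω : Fin (n + 1) → Fin 3 → ℤ | IsW (St 3) n ω}.Finite :=
        SB.finite_saw 3 n (by norm_num)
      have h3 := far_end (x1 3 (by norm_num)) R (fun v => Real.sqrt (SB.nsq v)) (fun v =>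
        Real.abs_le_sqrt (by
          unfold SB.nsq
          exact single_le_sum (f := fun k => ((v k : ℤ) : ℝ) ^ 2) (fun k _ => sq_nonneg _)
            (mem_univ (⟨0, by norm_num⟩ : Fin 3)))) (ρ n) hR hfinW
      have h4 := hN0 n (((le_max_left _ _).trans (le_max_left _ _)).trans h1)
      rw [SB.num_true] at h4
      have h5 : ({ω : Fin (n + 1) → Fin 3 → ℤ | SB.IsSAW 3 n ω}.ncard : ℝ) =
          N (St 3) Saw n := by
        have := c_eq (d := 3) (n := n)
        exact_mod_cast this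
      rw [h5, show (1 - 1 / 6 : ℝ) = 5 / 6 by norm_num] at h4
      have h6 : (N (St 3) (fun w => Br (x1 3 (by norm_num)) w ∧
          (R : ℤ) < x1 3 (by norm_num) w.sum) n : ℝ) ≤
          Real.exp (-(n : ℝ) ^ (5 / 6 : ℝ)) * N (St 3) Saw n := by
        refine le_trans ?_ h4
        unfold SB.num
        exact_mod_cast h3
      refine h6.trans ?_
      have h7 := mul_le_mul_of_nonneg_left (hgr n) (Real.exp_pos (-(n : ℝ) ^ (5 / 6 : ℝ))).le
      refine h7.trans (le_of_eq ?_)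
      simp only [hδ]
      ring
  obtain ⟨κ, K, hκ, hK, hfin⟩ := Pool.Agent.Q216.HS.fin3 c1 2 hc1
  set f : ℕ → ℝ := fun M =>
    (∑ n ∈ range (M + 1), (N (St 3) (Br (x1 3 (by norm_num))) n : ℝ) / μ ^ n) / D with hf
  have hf1 : ∀ M : ℕ, f M ≤ M + 1 := by
    intro M
    simp only [hf]
    rw [div_le_iff₀ (by linarith)]
    have h1 : ∑ n ∈ range (M + 1), (N (St 3) (Br (x1 3 (by norm_num))) n : ℝ) / μ ^ n ≤
        ∑ _n ∈ range (M + 1), (1 : ℝ) := by
      refine sum_le_sum fun n _ => ?_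
      rw [div_le_one (by positivity)]
      exact hb n
    rw [sum_const, card_range, nsmul_eq_mul, mul_one] at h1
    push_cast at h1
    have h2 : (0 : ℝ) ≤ M := Nat.cast_nonneg _
    nlinarith
  have hf2 : ∀ M : ℕ, 2 ≤ M →
      f M ≤ M / Real.log M ^ c1 + 2 + (M + 1) * Real.exp (-(M : ℝ) ^ (1 / 2 : ℝ)) := by
    intro M hM
    simp only [hf]
    rw [div_le_iff₀ (by linarith)]
    have hM2 : (2 : ℝ) ≤ M := by exact_mod_cast hM
    have hlM : 0 < Real.log M := Real.log_pos (by linarith)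
    have h1 : 0 ≤ ρ M := by positivity
    have h2 : (0 : ℝ) ≤ (M + 1) * Real.exp (-(M : ℝ) ^ (1 / 2 : ℝ)) := by positivity
    have h3 : (ρ M + 2) * 1 ≤ (ρ M + 2) * D := mul_le_mul_of_nonneg_left hD1 (by linarith)
    have h4 : ρ M + 2 + n1 + B ≤ (ρ M + 2) * D := by
      have : (0 : ℝ) ≤ n1 := Nat.cast_nonneg _
      nlinarith
    refine (hmain M hM).trans (h4.trans ?_)
    refine mul_le_mul_of_nonneg_right ?_ (by linarith)
    linarith
  refine ⟨κ, K * D, hκ, by positivity, fun M hM => ?_⟩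
  have h1 := (hfin f hf1 hf2).1 M hM
  simp only [hf] at h1
  rw [div_le_iff₀ (by linarith)] at h1
  refine h1.trans (le_of_eq ?_)
  ring

end Pool.Agent.Q234.HS.Zd
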