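import Pool.Agent.Q234.HS.Count

/-! Walks as functions and words of steps. -/

set_option autoImplicit false

namespace Pool.Agent.Q234.HS

variable {V : Type} [AddCommGroup V]

/-- self-avoiding walks with steps in `S` -/
def IsW (S : Set V) (n : ℕ) (ω : Fin (n + 1) → V) : Prop :=
  ω 0 = 0 ∧ (∀ i : Fin n, ω i.succ - ω i.castSucc ∈ S) ∧ Function.Injective ω

/-- the word of the steps -/
def word {n : ℕ} (ω : Fin (n + 1) → V) : List V :=
  List.ofFn fun i : Fin n => ω i.succ - ω i.castSucc

theorem word_length {n : ℕ} (ω : Fin (n + 1) → V) : (word ω).length = n := by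
  simp [word]

theorem take_sum {n : ℕ} (ω : Fin (n + 1) → V) (h0 : ω 0 = 0) :
    ∀ (k : ℕ) (hk : k < n + 1), ((word ω).take k).sum = ω ⟨k, hk⟩ := by
  intro k
  induction k with
  | zero =>
    intro hk
    simp only [List.take_zero, List.sum_nil]
    exact h0.symm
  | succ k ih =>
    intro hk
    have h1 : k < (word ω).length := by rw [word_length]; omega
    rw [List.sum_take_succ _ _ h1, ih (by omega)]
    simp only [word, List.getElem_ofFn]
    have e1 : (⟨k, by omega⟩ : Fin n).succ = ⟨k + 1, hk⟩ := rfl
    have e2 : (⟨k, by omega⟩ : Fin n).castSucc = ⟨k, by omega⟩ := rfl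
    rw [e1, e2]
    abel

theorem word_injOn (n : ℕ) : Set.InjOn word {ω : Fin (n + 1) → V | ω 0 = 0} := by
  intro ω h ω' h' he
  funext i
  have h1 := take_sum ω h i i.isLt
  have h2 := take_sum ω' h' i i.isLt
  rw [he, h2] at h1
  exact h1.symm

theorem exists_walk (w : List V) (n : ℕ) (hw : w.length = n) :
    ∃ ω : Fin (n + 1) → V, ω 0 = 0 ∧ word ω = w := by
  subst hw
  refine ⟨fun i => (w.take i).sum, by simp, ?_⟩
  apply List.ext_getElem
  · simp [word]
  · intro i h1 h2
    simp only [word, List.getElem_ofFn, Fin.val_succ, Fin.val_castSucc]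
    rw [List.sum_take_succ _ _ h2]
    abel

/-- prefixes -/
theorem forall_prefix {n : ℕ} (ω : Fin (n + 1) → V) (h0 : ω 0 = 0) (p : V → Prop) :
    (∀ u, u ≠ [] → u <+: word ω → p u.sum) ↔ ∀ i, i ≠ 0 → p (ω i) := by
  constructor
  · intro h i hi
    have h1 := h ((word ω).take i) ?_ (List.take_prefix _ _)
    · rwa [take_sum ω h0 i i.isLt] at h1
    · intro h2
      have h3 := congrArg List.length h2
      rw [List.length_take, word_length] at h3
      have h4 : (i : ℕ) ≠ 0 := fun h => hi (Fin.ext h)
      have := i.isLt
      simp at h3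
      omega
  · intro h u hu hp
    rw [List.prefix_iff_eq_take] at hp
    have h1 : u.length < n + 1 := by
      have := congrArg List.length hp
      rw [List.length_take, word_length] at this
      omega
    have h2 := h ⟨u.length, h1⟩ (by
      intro h3
      have := congrArg Fin.val h3
      simp at this
      exact hu this)
    rw [hp, take_sum ω h0 u.length h1]
    exact h2

/-- suffixes -/
theorem forall_suffix {n : ℕ} (ω : Fin (n + 1) → V) (h0 : ω 0 = 0) (p : V → Prop) :
    (∀ u, u <:+ word ω → p u.sum) ↔ ∀ i, p (ω (Fin.last n) - ω i) := by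
  have hlast : (word ω).sum = ω (Fin.last n) := by
    have h1 := take_sum ω h0 n (by omega)
    have h2 : (word ω).take n = word ω := by
      rw [List.take_eq_self_iff, word_length]
    rw [h2] at h1
    exact h1
  have hdrop : ∀ k (hk : k < n + 1), ((word ω).drop k).sum = ω (Fin.last n) - ω ⟨k, hk⟩ := by
    intro k hk
    have h1 := List.sum_take_add_sum_drop (word ω) k
    rw [take_sum ω h0 k hk, hlast] at h1
    rw [← h1]
    abel
  constructor
  · intro h i
    have h1 := h _ (List.drop_suffix i (word ω))
    rwa [hdrop i i.isLt] at h1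
  · intro h u hu
    rw [List.suffix_iff_eq_drop, word_length] at hu
    have h1 := h ⟨n - u.length, by omega⟩
    rw [← hdrop] at h1
    rw [hu]
    exact h1

theorem saw_iff {n : ℕ} (ω : Fin (n + 1) → V) (h0 : ω 0 = 0) :
    Saw (word ω) ↔ Function.Injective ω := by
  constructor
  · intro h
    have key : ∀ i j : Fin (n + 1), i < j → ω i ≠ ω j := by
      intro i j hij he
      have hj := j.isLt
      have hij' : (i : ℕ) < j := hij
      have h1 : ((word ω).take j).drop i <:+: word ω :=
        (List.drop_suffix _ _).isInfix.trans (List.take_prefix _ _).isInfix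
      refine h _ ?_ h1 ?_
      · intro h2
        have h3 := congrArg List.length h2
        rw [List.length_drop, List.length_take, word_length] at h3
        simp at h3
        omega
      · have h2 := List.sum_take_add_sum_drop ((word ω).take j) i
        rw [List.take_take, min_eq_left (by omega), take_sum ω h0 i i.isLt,
          take_sum ω h0 j j.isLt] at h2
        change ω i + _ = ω j at h2
        rw [← he] at h2
        simpa using h2
    intro i j he
    rcases lt_trichotomy i j with h1 | h1 | h1
    · exact absurd he (key i j h1)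
    · exact h1
    · exact absurd he.symm (key j i h1)
  · intro hinj u hu hw h0'
    obtain ⟨s, t, hst⟩ := hw
    have hlen : s.length + u.length + t.length = n := by
      rw [← word_length ω, ← hst, List.length_append, List.length_append]
    have hpos : 0 < u.length := List.length_pos_iff.2 hu
    have e1 : (word ω).take s.length = s := by
      rw [← hst, List.append_assoc, List.take_left']
      rfl
    have e2 : (word ω).take (s.length + u.length) = s ++ u := by
      rw [← hst, List.take_left']
      simp
    have h1 := take_sum ω h0 s.length (by omega)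
    have h2 := take_sum ω h0 (s.length + u.length) (by omega)
    rw [e1] at h1
    rw [e2, List.sum_append, h0', add_zero, h1] at h2
    have h3 := congrArg Fin.val (hinj h2)
    simp only at h3
    omega

/-- counting walks and counting words -/
theorem ncard_walks (S : Set V) (n : ℕ) (P : (Fin (n + 1) → V) → Prop) (Q : List V → Prop)
    (h : ∀ ω, IsW S n ω → (P ω ↔ Q (word ω))) :
    {ω | IsW S n ω ∧ P ω}.ncard = N S (fun w => Saw w ∧ Q w) n := by
  have hinj : Set.InjOn word {ω | IsW S n ω ∧ P ω} :=
    (word_injOn n).mono fun ω hω => hω.1.1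
  rw [N, ← hinj.ncard_image]
  congr 1
  ext w
  constructor
  · rintro ⟨ω, ⟨hω, hP⟩, rfl⟩
    refine ⟨word_length ω, ?_, (saw_iff ω hω.1).2 hω.2.2, (h ω hω).1 hP⟩
    intro a ha
    rw [word, List.mem_ofFn] at ha
    obtain ⟨i, rfl⟩ := ha
    exact hω.2.1 i
  · rintro ⟨hl, hS, hs, hQ⟩
    obtain ⟨ω, h0, rfl⟩ := exists_walk w n hl
    have hW : IsW S n ω := by
      refine ⟨h0, fun i => hS _ ?_, (saw_iff ω h0).1 hs⟩
      rw [word, List.mem_ofFn]
      exact ⟨i, rfl⟩
    exact ⟨ω, ⟨hW, (h ω hW).2 hQ⟩, rfl⟩

end Pool.Agent.Q234.HS
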