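import Pool.Agent.Q234.HS.Break

/-! Unfolding of half-space words into bridges. -/

set_option autoImplicit false

namespace Pool.Agent.Q234.HS

open Finset

theorem biU_sum {M : Type} [AddCommMonoid M] (N : ℕ) (F : ℕ × ℕ → M) :
    ∑ n ∈ range (N + 1), ∑ p ∈ antidiagonal n, F p =
      ∑ p ∈ (range (N + 1)).biUnion (fun n => antidiagonal n), F p := by
  rw [sum_biUnion]
  intro a _ b _ hab
  rw [Function.onFun, Finset.disjoint_left]
  intro p hp hq
  rw [HasAntidiagonal.mem_antidiagonal] at hp hq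
  exact hab (hp.symm.trans hq)

theorem conv_le_mul {f g : ℕ → ℝ} (hf : ∀ n, 0 ≤ f n) (hg : ∀ n, 0 ≤ g n) (N : ℕ) :
    ∑ n ∈ range (N + 1), ∑ p ∈ antidiagonal n, f p.1 * g p.2 ≤
      (∑ i ∈ range (N + 1), f i) * ∑ j ∈ range (N + 1), g j := by
  rw [biU_sum, sum_mul_sum, ← sum_product']
  refine sum_le_sum_of_subset_of_nonneg ?_ fun p _ _ => mul_nonneg (hf _) (hg _)
  intro p hp
  simp only [mem_biUnion, mem_range, HasAntidiagonal.mem_antidiagonal, mem_product] at hp ⊢
  omega

theorem mul_le_conv {f g : ℕ → ℝ} (hf : ∀ n, 0 ≤ f n) (hg : ∀ n, 0 ≤ g n) (N : ℕ) :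
    (∑ i ∈ range (N + 1), f i) * ∑ j ∈ range (N + 1), g j ≤
      ∑ n ∈ range (2 * N + 1), ∑ p ∈ antidiagonal n, f p.1 * g p.2 := by
  rw [biU_sum, sum_mul_sum, ← sum_product']
  refine sum_le_sum_of_subset_of_nonneg ?_ fun p _ _ => mul_nonneg (hf _) (hg _)
  intro p hp
  simp only [mem_biUnion, mem_range, HasAntidiagonal.mem_antidiagonal, mem_product] at hp ⊢
  exact ⟨p.1 + p.2, by omega, rfl⟩

variable {V : Type} [AddCommGroup V]

/-- half-space words of height at most `T` -/
def HalfT (l : V →+ ℤ) (T : ℕ) (w : List V) : Prop := Half l w ∧ ∀ u, u <+: w → l u.sum ≤ T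

/-- bridges of height `T` -/
def BrT (l : V →+ ℤ) (T : ℕ) (w : List V) : Prop := Br l w ∧ l w.sum = T

/-- the last time of maximal level -/
theorem exists_lastmax (l : V →+ ℤ) (T : ℕ) (w : List V) (hw : HalfT l (T + 1) w)
    (h : ¬ HalfT l T w) :
    ∃ u r, u ++ r = w ∧ BrT l (T + 1) u ∧ HalfT l T (r.map fun a => -a) := by
  classical
  have hex : ∃ k, ∃ u r, u ++ r = w ∧ l u.sum = T + 1 ∧ r.length = k := by
    have h1 : ¬ ∀ u, u <+: w → l u.sum ≤ T := fun h1 => h ⟨hw.1, h1⟩
    push Not at h1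
    obtain ⟨u, ⟨r, hr⟩, hu⟩ := h1
    have h2 := hw.2 u ⟨r, hr⟩
    push_cast at h2
    exact ⟨r.length, u, r, hr, by omega, rfl⟩
  obtain ⟨u, r, hur, hu, hk⟩ := Nat.find_spec hex
  have hmin := fun m hm => Nat.find_min (m := m) hex hm
  have hpre : ∀ y, y ≠ [] → y <+: r → l y.sum < 0 ∧ -(T + 1 : ℤ) < l y.sum := by
    intro y hy0 hy
    obtain ⟨t, ht⟩ := hy
    have h1 : u ++ y <+: w := ⟨t, by rw [List.append_assoc, ht, hur]⟩
    have h2 := hw.2 _ h1
    have h3 := hw.1.2 _ (by simp [hy0]) h1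
    rw [List.sum_append, map_add] at h2 h3
    push_cast at h2
    refine ⟨?_, by omega⟩
    by_contra hcon
    have h4 : l y.sum = 0 := by omega
    have h5 : t.length < Nat.find hex := by
      rw [← hk, ← ht, List.length_append]
      have : 0 < y.length := List.length_pos_iff.2 hy0
      omega
    refine hmin _ h5 ⟨u ++ y, t, by rw [List.append_assoc, ht, hur], ?_, rfl⟩
    rw [List.sum_append, map_add]
    omega
  have hsr : Saw r := hw.1.1.sub ⟨u, [], by simpa using hur⟩
  refine ⟨u, r, hur, ⟨⟨⟨hw.1.1.sub ⟨[], r, by simpa using hur⟩, ?_⟩, ?_⟩, ?_⟩, ⟨⟨?_, ?_⟩, ?_⟩⟩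
  · intro x hx hxu
    exact hw.1.2 x hx (hxu.trans ⟨r, hur⟩)
  · rintro x ⟨t, ht⟩
    have h1 := hw.2 t (by rw [← hur, ← ht, List.append_assoc]; exact List.prefix_append _ _)
    have h2 : l t.sum + l x.sum = T + 1 := by rw [← map_add, ← List.sum_append, ht, hu]
    push_cast at h1
    omega
  · push_cast
    exact hu
  · have h1 := hsr.nr.reverse
    unfold nr at h1
    rwa [List.reverse_reverse] at h1
  · intro x hx hxr
    have h1 : x.map (fun a => -a) <+: r := by
      have h2 := hxr.map (fun a : V => -a)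
      rw [List.map_map] at h2
      have h6 : ((fun a : V => -a) ∘ fun a : V => -a) = id := by
        funext a
        simp
      rwa [h6, List.map_id] at h2
    have h2 := (hpre _ (by simpa using hx) h1).1
    have h3 : (x.map fun a => -a).sum = -x.sum := by
      have := nr_sum x
      unfold nr at this
      rwa [List.sum_reverse] at this
    rw [h3, map_neg] at h2
    omega
  · intro x hxr
    by_cases hx : x = []
    · simp [hx]
    have h1 : x.map (fun a => -a) <+: r := by
      have h2 := hxr.map (fun a : V => -a)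
      rw [List.map_map] at h2
      have h6 : ((fun a : V => -a) ∘ fun a : V => -a) = id := by
        funext a
        simp
      rwa [h6, List.map_id] at h2
    have h2 := (hpre _ (by simpa using hx) h1).2
    have h3 : (x.map fun a => -a).sum = -x.sum := by
      have := nr_sum x
      unfold nr at this
      rwa [List.sum_reverse] at this
    rw [h3, map_neg] at h2
    omega

theorem N_HalfT_succ {S : Set V} (hS : S.Finite) (hneg : ∀ a ∈ S, -a ∈ S) (l : V →+ ℤ)
    (T n : ℕ) : N S (HalfT l (T + 1)) n ≤ N S (HalfT l T) n +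
      ∑ p ∈ antidiagonal n, N S (BrT l (T + 1)) p.1 * N S (HalfT l T) p.2 := by
  classical
  rw [← ncard_WW hS]
  set A : Set (List V) := W S (HalfT l T) n with hA
  set B : Set (List V) := {w ∈ W S (HalfT l (T + 1)) n | ¬ HalfT l T w} with hB
  have hsub : W S (HalfT l (T + 1)) n ⊆ A ∪ B := by
    intro w hw
    by_cases h : HalfT l T w
    · exact Or.inl ⟨hw.1, hw.2.1, h⟩
    · exact Or.inr ⟨hw, h⟩
  have hBf : B.Finite := (finite_W hS _ n).subset fun w hw => hw.1
  have h1 : ∀ w : B, ∃ p : List V × List V, p.1 ++ p.2 = w.1 ∧ BrT l (T + 1) p.1 ∧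
      HalfT l T (p.2.map fun a => -a) := by
    rintro ⟨w, hw, hn⟩
    obtain ⟨u, r, h⟩ := exists_lastmax l T w hw.2.2 hn
    exact ⟨(u, r), h⟩
  choose P hP using h1
  have h2 : B.ncard ≤ (WW S (BrT l (T + 1)) (HalfT l T) n).ncard := by
    rw [Set.ncard_eq_toFinset_card _ hBf]
    refine Set.ncard_le_ncard_of_injOn
      (fun w => if h : w ∈ B then ((P ⟨w, h⟩).1, (P ⟨w, h⟩).2.map fun a => -a) else ([], []))
      ?_ ?_ (finite_WW hS _ _ n) |> fun h => by rwa [Set.ncard_eq_toFinset_card _ hBf] at h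
    · intro w hw
      simp only [hw, dif_pos]
      obtain ⟨h3, h4, h5⟩ := hP ⟨w, hw⟩
      obtain ⟨h6, h7, h8⟩ := hw.1
      change _ = w at h3
      refine ⟨?_, ?_, ?_, h4, h5⟩
      · simp only [List.length_map]
        rw [← List.length_append, h3]
        exact h6
      · intro a ha
        exact h7 a (by rw [← h3]; exact List.mem_append_left _ ha)
      · intro a ha
        obtain ⟨b, hb, rfl⟩ := List.mem_map.1 ha
        exact hneg b (h7 b (by rw [← h3]; exact List.mem_append_right _ hb))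
    · intro w hw w' hw' he
      simp only [hw, hw', dif_pos, Prod.mk.injEq] at he
      obtain ⟨h3, h4⟩ := he
      have h5 := (List.map_injective_iff.2 (neg_injective (G := V))) h4
      have h6 := (hP ⟨w, hw⟩).1
      have h7 := (hP ⟨w', hw'⟩).1
      simp only at h6 h7
      rw [← h6, ← h7, h3, h5]
  calc N S (HalfT l (T + 1)) n ≤ (A ∪ B).ncard :=
        Set.ncard_le_ncard hsub ((finite_W hS _ n).union hBf)
    _ ≤ A.ncard + B.ncard := Set.ncard_union_le _ _
    _ ≤ _ := Nat.add_le_add_left h2 _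

/-- truncated generating function -/
noncomputable def gf (S : Set V) (P : List V → Prop) (z : ℝ) (M : ℕ) : ℝ :=
  ∑ n ∈ range (M + 1), (N S P n : ℝ) * z ^ n

omit [AddCommGroup V] in
theorem gf_nonneg (S : Set V) (P : List V → Prop) {z : ℝ} (hz : 0 ≤ z) (M : ℕ) :
    0 ≤ gf S P z M := sum_nonneg fun n _ => by positivity

theorem gf_HalfT_succ {S : Set V} (hS : S.Finite) (hneg : ∀ a ∈ S, -a ∈ S) (l : V →+ ℤ)
    (T M : ℕ) {z : ℝ} (hz : 0 ≤ z) : gf S (HalfT l (T + 1)) z M ≤
      gf S (HalfT l T) z M * (1 + gf S (BrT l (T + 1)) z M) := by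
  have h1 : gf S (HalfT l (T + 1)) z M ≤ gf S (HalfT l T) z M +
      ∑ n ∈ range (M + 1), ∑ p ∈ antidiagonal n, ((N S (BrT l (T + 1)) p.1 : ℝ) * z ^ p.1) *
        ((N S (HalfT l T) p.2 : ℝ) * z ^ p.2) := by
    unfold gf
    rw [← sum_add_distrib]
    refine sum_le_sum fun n _ => ?_
    have h2 : (N S (HalfT l (T + 1)) n : ℝ) ≤ N S (HalfT l T) n +
        ∑ p ∈ antidiagonal n, (N S (BrT l (T + 1)) p.1 : ℝ) * N S (HalfT l T) p.2 := by
      exact_mod_cast N_HalfT_succ hS hneg l T n
    have h3 : ∑ p ∈ antidiagonal n, ((N S (BrT l (T + 1)) p.1 : ℝ) * z ^ p.1) *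
        ((N S (HalfT l T) p.2 : ℝ) * z ^ p.2) =
        (∑ p ∈ antidiagonal n, (N S (BrT l (T + 1)) p.1 : ℝ) * N S (HalfT l T) p.2) * z ^ n := by
      rw [sum_mul]
      refine sum_congr rfl fun p hp => ?_
      rw [HasAntidiagonal.mem_antidiagonal] at hp
      rw [← hp, pow_add]
      ring
    rw [h3, ← add_mul]
    exact mul_le_mul_of_nonneg_right h2 (by positivity)
  refine h1.trans ?_
  have h4 := conv_le_mul (f := fun n => (N S (BrT l (T + 1)) n : ℝ) * z ^ n)
    (g := fun n => (N S (HalfT l T) n : ℝ) * z ^ n) (fun n => by positivity)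
    (fun n => by positivity) M
  have h5 : (∑ i ∈ range (M + 1), (N S (BrT l (T + 1)) i : ℝ) * z ^ i) *
      ∑ j ∈ range (M + 1), (N S (HalfT l T) j : ℝ) * z ^ j =
      gf S (BrT l (T + 1)) z M * gf S (HalfT l T) z M := rfl
  rw [h5] at h4
  linarith

theorem gf_HalfT_zero (S : Set V) (l : V →+ ℤ) (M : ℕ) {z : ℝ} :
    gf S (HalfT l 0) z M ≤ 1 := by
  have h1 : ∀ w, HalfT l 0 w → w = [] := by
    intro w hw
    by_contra h0
    have h1 := hw.1.2 w h0 (List.prefix_refl w)
    have h2 := hw.2 w (List.prefix_refl w)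
    push_cast at h2
    omega
  have h2 : ∀ n, n ≠ 0 → N S (HalfT l 0) n = 0 := by
    intro n hn
    unfold N
    have : W S (HalfT l 0) n = ∅ := by
      ext w
      simp only [Set.mem_empty_iff_false, iff_false]
      rintro ⟨h3, _, h4⟩
      rw [h1 w h4] at h3
      exact hn h3.symm
    rw [this, Set.ncard_empty]
  have h3 : N S (HalfT l 0) 0 ≤ 1 := by
    unfold N
    refine (Set.ncard_le_ncard (t := {[]}) ?_ (Set.finite_singleton _)).trans
      (Set.ncard_singleton _).le
    intro w hw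
    exact h1 w hw.2.2
  unfold gf
  rw [sum_eq_single 0]
  · rw [pow_zero, mul_one]
    exact_mod_cast h3
  · intro n _ hn
    rw [h2 n hn]
    simp
  · intro h
    exact absurd (mem_range.2 (Nat.succ_pos M)) h

theorem gf_HalfT_le {S : Set V} (hS : S.Finite) (hneg : ∀ a ∈ S, -a ∈ S) (l : V →+ ℤ)
    (M : ℕ) {z : ℝ} (hz : 0 ≤ z) (T : ℕ) : gf S (HalfT l T) z M ≤
      Real.exp (∑ t ∈ range T, gf S (BrT l (t + 1)) z M) := by
  induction T with
  | zero =>
    rw [range_zero, sum_empty, Real.exp_zero]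
    exact gf_HalfT_zero S l M
  | succ T ih =>
    rw [sum_range_succ, Real.exp_add]
    refine (gf_HalfT_succ hS hneg l T M hz).trans ?_
    have h1 := Real.add_one_le_exp (gf S (BrT l (T + 1)) z M)
    have h2 := gf_nonneg S (HalfT l T) hz M
    have h3 := gf_nonneg S (BrT l (T + 1)) hz M
    refine mul_le_mul ih (by linarith) (by linarith) (Real.exp_pos _).le

theorem sum_BrT_le {S : Set V} (hS : S.Finite) (l : V →+ ℤ) (M : ℕ) {z : ℝ} (hz : 0 ≤ z)
    (T : ℕ) : ∑ t ∈ range T, gf S (BrT l (t + 1)) z M ≤ gf S (Br l) z M := by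
  unfold gf
  rw [sum_comm]
  refine sum_le_sum fun n _ => ?_
  rw [← sum_mul]
  refine mul_le_mul_of_nonneg_right ?_ (by positivity)
  have h1 : ∑ t ∈ range T, N S (BrT l (t + 1)) n ≤ N S (Br l) n := by
    unfold N
    have h2 : (⋃ t ∈ range T, W S (BrT l (t + 1)) n) ⊆ W S (Br l) n := by
      intro w hw
      simp only [Set.mem_iUnion] at hw
      obtain ⟨t, _, h1, h2, h3⟩ := hw
      exact ⟨h1, h2, h3.1⟩
    refine le_trans (le_of_eq ?_) (Set.ncard_le_ncard h2 (finite_W hS _ n))
    classical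
    have hf : ∀ t, (W S (BrT l (t + 1)) n).Finite := fun t => finite_W hS _ n
    have h3 : (⋃ t ∈ range T, W S (BrT l (t + 1)) n) =
        (((range T).biUnion fun t => (hf t).toFinset : Finset (List V)) : Set (List V)) := by
      ext w
      simp
    rw [h3, Set.ncard_coe_finset, card_biUnion]
    · exact sum_congr rfl fun t _ => Set.ncard_eq_toFinset_card _ (hf t)
    · intro a _ b _ hab
      rw [Function.onFun, Finset.disjoint_left]
      intro w hw hw'
      rw [Set.Finite.mem_toFinset] at hw hw'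
      have h4 := hw.2.2.2
      have h5 := hw'.2.2.2
      apply hab
      have : ((a + 1 : ℕ) : ℤ) = ((b + 1 : ℕ) : ℤ) := h4.symm.trans h5
      push_cast at this
      omega
  exact_mod_cast h1

/-- Hammersley–Welsh: half-space words are unfolded into bridges of decreasing heights. -/
theorem gf_Half_le {S : Set V} (hS : S.Finite) (hneg : ∀ a ∈ S, -a ∈ S) (l : V →+ ℤ)
    (M : ℕ) {z : ℝ} (hz : 0 ≤ z) : gf S (Half l) z M ≤ Real.exp (gf S (Br l) z M) := by
  -- a bound for the levels
  obtain ⟨L, hL⟩ : ∃ L : ℕ, ∀ a ∈ S, l a ≤ L := by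
    obtain ⟨B, hB⟩ := (hS.image l).bddAbove
    refine ⟨B.toNat, fun a ha => ?_⟩
    have := hB (Set.mem_image_of_mem l ha)
    omega
  have h1 : gf S (Half l) z M = gf S (HalfT l (L * M)) z M := by
    unfold gf
    refine sum_congr rfl fun n hn => ?_
    rw [mem_range] at hn
    congr 2
    unfold N
    congr 1
    ext w
    constructor
    · rintro ⟨h1, h2, h3⟩
      refine ⟨h1, h2, h3, fun u hu => ?_⟩
      have h4 : ∀ u : List V, (∀ a ∈ u, a ∈ S) → l u.sum ≤ L * u.length := by
        intro u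
        induction u with
        | nil => intro _; simp
        | cons a u ih =>
          intro hu
          rw [List.sum_cons, map_add, List.length_cons]
          have h5 := hL a (hu a (by simp))
          have h6 := ih fun b hb => hu b (by simp [hb])
          push_cast
          linarith
      have h5 := h4 u fun a ha => h2 a (hu.subset ha)
      have h6 : u.length ≤ M := (hu.length_le.trans h1.le).trans (by omega)
      push_cast
      refine h5.trans ?_
      gcongr
    · rintro ⟨h1, h2, h3⟩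
      exact ⟨h1, h2, h3.1⟩
  rw [h1]
  refine (gf_HalfT_le hS hneg l M hz _).trans ?_
  exact Real.exp_le_exp.2 (sum_BrT_le hS l M hz _)

end Pool.Agent.Q234.HS
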