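import Pool.Agent.Q234.HS.Avg

/-! The steps of `ℤ^d`. -/

set_option autoImplicit false

namespace Pool.Agent.Q234.HS.Zd

open Finset Filter Topology

/-- unit steps -/
def St (d : ℕ) : Set (Fin d → ℤ) := {v | ∑ k, |v k| = 1}

theorem St_finite (d : ℕ) : (St d).Finite := by
  have h1 : (Set.pi Set.univ (fun _ : Fin d => Set.Icc (-1 : ℤ) 1)).Finite :=
    Set.Finite.pi' (fun _ => Set.finite_Icc _ _) |>.subset fun f hf i => hf i (Set.mem_univ i)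
  refine h1.subset fun v hv i _ => ?_
  have h2 : |v i| ≤ ∑ k, |v k| := single_le_sum (f := fun k => |v k|)
    (fun k _ => abs_nonneg _) (mem_univ i)
  have h3 : ∑ k, |v k| = 1 := hv
  rw [h3, abs_le] at h2
  exact h2

theorem St_neg (d : ℕ) : ∀ a ∈ St d, -a ∈ St d := by
  intro a ha
  unfold St at ha ⊢
  simpa using ha

theorem isW_iff {d n : ℕ} (ω : Fin (n + 1) → Fin d → ℤ) :
    IsW (St d) n ω ↔ (ω 0 = 0 ∧ (∀ i : Fin n, ∑ k, |ω i.succ k - ω i.castSucc k| = 1) ∧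
      Function.Injective ω) := Iff.rfl

/-- the first coordinate -/
def x1 (d : ℕ) (hd : 0 < d) : (Fin d → ℤ) →+ ℤ := Pi.evalAddMonoidHom _ ⟨0, hd⟩

theorem x1_apply {d : ℕ} (hd : 0 < d) (v : Fin d → ℤ) : x1 d hd v = v ⟨0, hd⟩ := rfl

theorem St_le {d : ℕ} {a : Fin d → ℤ} (ha : a ∈ St d) (i : Fin d) : |a i| ≤ 1 := by
  have h2 : |a i| ≤ ∑ k, |a k| := single_le_sum (f := fun k => |a k|)
    (fun k _ => abs_nonneg _) (mem_univ i)
  have h3 : ∑ k, |a k| = 1 := ha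
  rwa [h3] at h2

theorem x1_one {d : ℕ} (hd : 0 < d) : ∀ a ∈ St d, 0 < x1 d hd a → x1 d hd a = 1 := by
  intro a ha h
  rw [x1_apply] at h ⊢
  have h2 := St_le ha ⟨0, hd⟩
  rw [abs_le] at h2
  omega

/-- the unit vector -/
def e1 (d : ℕ) (hd : 0 < d) : Fin d → ℤ := Pi.single ⟨0, hd⟩ 1

theorem e1_mem {d : ℕ} (hd : 0 < d) : e1 d hd ∈ St d := by
  unfold St e1
  rw [Set.mem_ofPred_eq, sum_eq_single ⟨0, hd⟩]
  · simp
  · intro k _ hk
    rw [Pi.single_eq_of_ne hk]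
    simp
  · intro h
    exact absurd (mem_univ _) h

theorem e1_x1 {d : ℕ} (hd : 0 < d) : 0 < x1 d hd (e1 d hd) := by
  rw [x1_apply, e1, Pi.single_eq_same]
  exact one_pos

theorem up_eq {d : ℕ} (hd : 0 < d) : {a ∈ St d | 0 < x1 d hd a} = {e1 d hd} := by
  ext a
  constructor
  · rintro ⟨ha, h⟩
    have h1 := x1_one hd a ha h
    rw [x1_apply] at h1
    have h3 : ∑ k, |a k| = 1 := ha
    rw [← add_sum_erase _ _ (mem_univ (⟨0, hd⟩ : Fin d)), h1, abs_one] at h3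
    have h4 : ∑ k ∈ univ.erase (⟨0, hd⟩ : Fin d), |a k| = 0 := by omega
    rw [sum_eq_zero_iff_of_nonneg fun k _ => abs_nonneg _] at h4
    have h5 : a = e1 d hd := by
      funext k
      by_cases hk : k = ⟨0, hd⟩
      · rw [hk, h1, e1, Pi.single_eq_same]
      · have h6 := h4 k (mem_erase.2 ⟨hk, mem_univ _⟩)
        rw [abs_eq_zero] at h6
        rw [h6, e1, Pi.single_eq_of_ne hk]
    exact h5
  · intro h
    have h5 : a = e1 d hd := h
    rw [h5]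
    exact ⟨e1_mem hd, e1_x1 hd⟩

theorem up_card {d : ℕ} (hd : 0 < d) : {a ∈ St d | 0 < x1 d hd a}.ncard = 1 := by
  rw [up_eq, Set.ncard_singleton]

theorem c_eq {d n : ℕ} : {ω : Fin (n + 1) → Fin d → ℤ | IsW (St d) n ω}.ncard =
    N (St d) Saw n := by
  have h := ncard_walks (St d) n (fun _ => True) (fun _ => True) fun ω _ => Iff.rfl
  simp only [and_true] at h
  exact h

theorem h_eq {d n : ℕ} (l : (Fin d → ℤ) →+ ℤ) :
    {ω : Fin (n + 1) → Fin d → ℤ | IsW (St d) n ω ∧ ∀ i, i ≠ 0 → 0 < l (ω i)}.ncard =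
      N (St d) (Half l) n :=
  ncard_walks (St d) n _ (fun w => ∀ u, u ≠ [] → u <+: w → 0 < l u.sum)
    fun ω hω => (half_iff ω hω.1 l).symm

theorem b_eq {d n : ℕ} (l : (Fin d → ℤ) →+ ℤ) :
    {ω : Fin (n + 1) → Fin d → ℤ | IsW (St d) n ω ∧
      ∀ i, i ≠ 0 → 0 < l (ω i) ∧ l (ω i) ≤ l (ω (Fin.last n))}.ncard =
      N (St d) (Br l) n := by
  rw [ncard_walks (St d) n _ (fun w => (∀ u, u ≠ [] → u <+: w → 0 < l u.sum) ∧
    ∀ u, u <:+ w → 0 ≤ l u.sum) fun ω hω => (br_iff ω hω.1 l).symm]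
  unfold N
  congr 1
  ext w
  unfold W Br Half
  simp only [Set.mem_ofPred_eq, and_assoc]

theorem a_eq {d n : ℕ} (l : (Fin d → ℤ) →+ ℤ) :
    {ω : Fin (n + 1) → Fin d → ℤ | IsW (St d) n ω ∧
      ∃ k : Fin (n + 1), (∀ i, i ≤ k → l (ω i) ≤ l (ω k)) ∧ ∀ i, k < i → l (ω k) < l (ω i)}.ncard =
      N (St d) (fun w => Saw w ∧ HasCut l w) n :=
  ncard_walks (St d) n _ (HasCut l) fun ω hω => (hasCut_iff ω hω.1 l).symm

theorem inK_eq {d n : ℕ} (K : Set (Fin d → ℤ)) :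
    {ω : Fin (n + 1) → Fin d → ℤ | IsW (St d) n ω ∧ ∀ i, i ≠ 0 → ω i ∈ K}.ncard =
      N (St d) (InK K) n :=
  ncard_walks (St d) n _ (fun w => ∀ u, u ≠ [] → u <+: w → u.sum ∈ K)
    fun ω hω => (forall_prefix ω hω.1 fun v => v ∈ K).symm

theorem outK_eq {d n : ℕ} (K : Set (Fin d → ℤ)) :
    {ω : Fin (n + 1) → Fin d → ℤ | IsW (St d) n ω ∧ ∀ i, i ≠ 0 → ω i ∉ K}.ncard =
      N (St d) (OutK K) n :=
  ncard_walks (St d) n _ (fun w => ∀ u, u ≠ [] → u <+: w → u.sum ∉ K)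
    fun ω hω => (forall_prefix ω hω.1 fun v => v ∉ K).symm

theorem far_le {d n m : ℕ} (l : (Fin d → ℤ) →+ ℤ) (E : (Fin (n + 1) → Fin d → ℤ) → Prop)
    (h : ∀ ω, IsW (St d) n ω → (∃ i, l (ω i) ≤ -(m : ℤ)) → E ω)
    (hfin : {ω | IsW (St d) n ω ∧ E ω}.Finite) :
    N (St d) (Far l m) n ≤ {ω | IsW (St d) n ω ∧ E ω}.ncard := by
  have h1 : {ω : Fin (n + 1) → Fin d → ℤ | IsW (St d) n ω ∧ ∃ i, l (ω i) ≤ -(m : ℤ)}.ncard =
      N (St d) (Far l m) n := by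
    refine ncard_walks (St d) n _ (fun w => ∃ u, u <+: w ∧ l u.sum ≤ -(m : ℤ)) fun ω hω => ?_
    have h2 := forall_prefix ω hω.1 fun v => ¬ l v ≤ -(m : ℤ)
    constructor
    · rintro ⟨i, hi⟩
      refine ⟨(word ω).take i, List.take_prefix _ _, ?_⟩
      rw [take_sum ω hω.1 i i.isLt]
      exact hi
    · rintro ⟨u, hu, hl⟩
      rw [List.prefix_iff_eq_take] at hu
      have h3 : u.length < n + 1 := by
        have := congrArg List.length hu
        rw [List.length_take, word_length] at this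
        omega
      refine ⟨⟨u.length, h3⟩, ?_⟩
      rw [← take_sum ω hω.1 u.length h3, ← hu]
      exact hl
  rw [← h1]
  exact Set.ncard_le_ncard (fun ω hω => ⟨hω.1, h ω hω.1 hω.2⟩) hfin

end Pool.Agent.Q234.HS.Zd
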